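import Pool.Agent.H323R2.C3.NT3
import Pool.Agent.H393R2.DE.Prime

/-! The dilation, trace and convolution relations for near multiples of a cubic number. -/

set_option autoImplicit false

namespace Pool.Agent.H323R2.C3

open Polynomial Finset
open Pool.Agent.H323R2.Gen (rho rho_dvd rho_degree vv ve MM ve_dil badG)
open Pool.Agent.H393R2.DC (S Pol dlt V sg S_sq S_Pol Dn)
open H393R2.DE (cf cum_eq_sg cum)

section

variable {q : ℕ} [Fact q.Prime]

theorem vv_zero (b : ℕ) (hb : (b : ZMod q) ≠ 0) (P : ℤ[X]) (R : ℕ) : vv b P q 0 R = 1 := by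
  unfold vv
  have h : S b (P ^ 0) R = (b : ℤ) ^ R := by
    unfold S
    rw [pow_zero, Finset.sum_eq_single 0]
    · simp
    · intro n _ hn
      rw [Polynomial.coeff_one, if_neg hn]; simp
    · intro hn; exact absurd (Finset.mem_range.2 (Nat.succ_pos _)) hn
  rw [h]
  push_cast
  rw [← mul_pow, mul_inv_cancel₀ hb, one_pow]

theorem vv_one (b : ℕ) (U : ℕ → ℤ) (N R : ℕ) (hR : R ≤ N) :
    vv b (Pol b U N) q 1 R = sg b U q R := by
  unfold vv sg
  rw [pow_one, S_Pol b U N R hR]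

theorem vv_two (b : ℕ) (hb : (b : ZMod q) ≠ 0) (U : ℕ → ℤ) (N R : ℕ) (hR : R ≤ N) :
    vv b (Pol b U N) q 2 R =
      ∑ i ∈ range (R + 1), ((dlt b U i : ℤ) : ZMod q) * ((b : ZMod q)⁻¹) ^ i * sg b U q (R - i) := by
  unfold vv
  rw [S_sq b U N R hR]
  push_cast
  rw [Finset.sum_mul]
  apply Finset.sum_congr rfl
  intro i hi
  rw [Finset.mem_range] at hi
  unfold sg
  have : ((b : ZMod q)⁻¹) ^ R = ((b : ZMod q)⁻¹) ^ i * ((b : ZMod q)⁻¹) ^ (R - i) := by
    rw [← pow_add]; congr 1; omega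
  rw [this]; ring

theorem row (f : ℤ[X]) (hf : f.Monic) (hd : f.natDegree = 3) (b : ℕ) (hb : (b : ZMod q) ≠ 0)
    (P : ℤ[X]) (N R : ℕ) (hR : R ≤ N) (hbad : R ∉ badG f 3 b P q N) (i : ℕ) (hi : i < 3) :
    vv b P q i (R / q) = rc f q (i * q) 0 * vv b P q 0 R + rc f q (i * q) 1 * vv b P q 1 R +
      rc f q (i * q) 2 * vv b P q 2 R := by
  have h := congrFun (ve_dil f hf 3 hd (by norm_num) b P q hb N R hR hbad) ⟨i, hi⟩
  simp only [ve, Matrix.mulVec, dotProduct, MM, Matrix.of_apply, Fin.sum_univ_three] at h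
  exact h

end

theorem relations (f : ℤ[X]) (hf : f.Monic) (hd : f.natDegree = 3) (a r : ℤ)
    (hfe : f = X ^ 3 + C a * X + C r) (q : ℕ) [Fact q.Prime]
    (hroot : ∀ x : ZMod q, (f.map (Int.castRingHom (ZMod q))).eval x ≠ 0)
    (ha : (a : ZMod q) ≠ 0) (h2 : (2 : ZMod q) ≠ 0) (h3 : (3 : ZMod q) ≠ 0)
    (b : ℕ) (hb : (b : ZMod q) ≠ 0) (U : ℕ → ℤ) (N : ℕ) :
    ∃ α β γ : ZMod q, γ ≠ 0 ∧
      (∀ R ≤ N, R ∉ badG f 3 b (Pol b U N) q N →
        ∑ i ∈ range (R + 1), ((dlt b U i : ℤ) : ZMod q) * ((b : ZMod q)⁻¹) ^ i * sg b U q (R - i) =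
          α * sg b U q (R / q) + β * sg b U q R + γ) ∧
      (∀ R ≤ N, R ∉ badG f 3 b (Pol b U N) q N → R / q ∉ badG f 3 b (Pol b U N) q N →
        sg b U q R + sg b U q (R / q) + sg b U q (R / q / q) = 0) := by
  obtain ⟨hA, hC, t0, t1, t2⟩ := frob_rel (q := q) f hf hd a r hfe hroot ha h2 h3
  set P := Pol b U N with hP
  refine ⟨(rc f q q 2)⁻¹, -(rc f q q 2)⁻¹ * rc f q q 1, -(rc f q q 2)⁻¹ * rc f q q 0, ?_, ?_, ?_⟩
  · exact mul_ne_zero (neg_ne_zero.2 (inv_ne_zero hA)) hC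
  · intro R hR hbad
    have h := row f hf hd b hb P N R hR hbad 1 (by norm_num)
    rw [one_mul, vv_zero b hb, vv_one b U N R hR, vv_two b hb U N R hR,
      vv_one b U N (R / q) ((Nat.div_le_self _ _).trans hR)] at h
    rw [h]
    field_simp
    ring
  · intro R hR hbad hbad2
    have hR1 : R / q ≤ N := (Nat.div_le_self _ _).trans hR
    have hR2 : R / q / q ≤ N := (Nat.div_le_self _ _).trans hR1
    have h0 := row f hf hd b hb P N R hR hbad 0 (by norm_num)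
    have h1 := row f hf hd b hb P N R hR hbad 1 (by norm_num)
    have h2' := row f hf hd b hb P N R hR hbad 2 (by norm_num)
    have h1' := row f hf hd b hb P N (R / q) hR1 hbad2 1 (by norm_num)
    rw [one_mul] at h1'
    have z : ∀ x, vv b P q 0 x = 1 := fun x => vv_zero b hb P x
    rw [h0, h1, h2'] at h1'
    rw [← vv_one b U N R hR, ← vv_one b U N (R / q) hR1, ← vv_one b U N (R / q / q) hR2, ← hP, h1',
      h1, one_mul]
    rw [one_mul] at t0 t1 t2
    linear_combination vv b P q 0 R * t0 + vv b P q 1 R * t1 + vv b P q 2 R * t2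

end Pool.Agent.H323R2.C3
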