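import Pool.Agent.H323R2.C3.Single
import Pool.Agent.H393R2.DE.Prime

/-! The single prime theorem for a sequence of near multiples of a cubic irrational. -/

set_option autoImplicit false

namespace Pool.Agent.H323R2.C3

open Finset
open H393R2.DE (Jmp mem_Jmp uu_exists far_gt Far cl cum wt dia far_exists cum_far Adm adm_far adm_exists cum_change jumps_card cf cum_eq_sg)
open Pool.Agent.H393R2.DC (UU mem_UU compl_card dlt sg Dn sg_step)

theorem pre_card (p : ℕ) (hp : 0 < p) (B : Finset ℕ) (N : ℕ) :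
    ((range (N + 1)).filter (fun R => R / p ∈ B)).card ≤ B.card * p := by
  classical
  have hsub : (range (N + 1)).filter (fun R => R / p ∈ B) ⊆
      B.biUnion (fun y => Ico (p * y) (p * (y + 1))) := by
    intro R hR
    rw [Finset.mem_filter] at hR
    rw [Finset.mem_biUnion]
    refine ⟨R / p, hR.2, ?_⟩
    rw [Finset.mem_Ico]
    have h1 := Nat.div_add_mod R p
    have h2 := Nat.mod_lt R hp
    rw [mul_add, mul_one]
    omega
  refine (Finset.card_le_card hsub).trans (Finset.card_biUnion_le.trans ?_)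
  rw [← smul_eq_mul, ← Finset.sum_const]
  apply Finset.sum_le_sum
  intro i _
  rw [Nat.card_Ico, ← Nat.mul_sub]
  simp

theorem nf_card (p : ℕ) (hp : 0 < p) (D : Finset ℕ) (H N : ℕ) :
    ((range (N + 1)).filter (fun R => ¬ Far D H ((R / p : ℕ) : ℤ))).card ≤ dia D H * p := by
  classical
  set B : Finset ℕ := D.biUnion (fun d => Ico (d - H) (d + H + 1)) with hB
  have hBc : B.card ≤ dia D H := by
    refine Finset.card_biUnion_le.trans ?_
    unfold dia
    rw [← smul_eq_mul, ← Finset.sum_const]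
    apply Finset.sum_le_sum
    intro i _
    rw [Nat.card_Ico]; omega
  refine le_trans (Finset.card_le_card ?_) ((pre_card p hp B N).trans (Nat.mul_le_mul_right _ hBc))
  intro R hR
  rw [Finset.mem_filter] at hR ⊢
  refine ⟨hR.1, ?_⟩
  have h := hR.2
  unfold Far at h
  push Not at h
  obtain ⟨d, hd, h1⟩ := h
  rw [hB, Finset.mem_biUnion]
  refine ⟨d, hd, ?_⟩
  rw [Finset.mem_Ico]
  rw [abs_le] at h1
  generalize R / p = v at h1 ⊢
  omega

theorem single_prime (b : ℕ) (U : ℕ → ℤ) (p N K P e Zl m : ℕ) [Fact p.Prime] (hp : 5 ≤ p)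
    (hb : (b : ZMod p) ≠ 0) (B : Finset ℕ) {α β γ : ZMod p} (hγ : γ ≠ 0)
    (hconv0 : ∀ R ≤ N, R ∉ B →
        ∑ i ∈ range (R + 1), ((dlt b U i : ℤ) : ZMod p) * ((b : ZMod p)⁻¹) ^ i * sg b U p (R - i) =
          α * sg b U p (R / p) + β * sg b U p R + γ)
    (htr0 : ∀ R ≤ N, R ∉ B → R / p ∉ B →
        sg b U p R + sg b U p (R / p) + sg b U p (R / p / p) = 0)
    (hbad : B.card ≤ e)
    (hm : (Dn b U N).card + 1 ≤ m) (hP : 10 ^ 4 * m ^ 3 * (p ^ 3) ^ 4 ≤ (p ^ 3) ^ P)
    (hsz : 10 ^ 6 * (e + 1) ^ 2 * m ^ 6 * (p ^ 3) ^ (4 * K + 10 * P) * (Zl + 1) ≤ N) :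
    ∃ (A : Finset ℕ) (δ : ℕ → ℕ → ℕ), (∀ u ∈ A, Zl ≤ u) ∧
      (∀ u ∈ A, ∀ k ≤ K, δ u k ∈ Dn b U N ∧ u < (p ^ 3) ^ k * δ u k ∧
        (p ^ 3) ^ k * δ u k ≤ u + (e * (p ^ 3) ^ (K + 2 * P) + 1)) ∧
      (∀ u ∈ A, ∀ u' ∈ A, ∀ k ≤ K, ∀ k' ≤ K, δ u k = δ u' k' → u = u' ∧ k = k') ∧
      K ≤ 12 * P * (P * A.card) + 4 * P + 8 := by
  classical
  obtain ⟨q, hq⟩ : ∃ q, q = p ^ 3 := ⟨_, rfl⟩
  rw [← hq] at hP hsz ⊢
  have hp0 : 0 < p := by omega
  have hp2 : 25 ≤ p ^ 2 := by nlinarith
  have hq5 : 5 * p ^ 2 ≤ q := by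
    rw [hq, pow_succ p 2]; nlinarith
  have hpq : p ≤ p ^ 2 := Nat.le_self_pow (by norm_num) p
  have hpp : 5 * p ≤ p ^ 2 := by nlinarith
  have hq3 : 125 ≤ q := by omega
  have hq2 : 2 ≤ q := by omega
  have hqpos : 0 < q := by omega
  have hm1 : 1 ≤ m := by omega
  have h2 : (2 : ZMod p) ≠ 0 := by
    intro h
    have h3 : ((2 : ℕ) : ZMod p) = 0 := by exact_mod_cast h
    rw [ZMod.natCast_eq_zero_iff] at h3
    have := Nat.le_of_dvd (by norm_num) h3
    omega
  have h3 : (3 : ZMod p) ≠ 0 := by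
    intro h
    have h3 : ((3 : ℕ) : ZMod p) = 0 := by exact_mod_cast h
    rw [ZMod.natCast_eq_zero_iff] at h3
    have := Nat.le_of_dvd (by norm_num) h3
    omega
  -- `P ≥ 4`
  have hm3 : 1 ≤ m ^ 3 := Nat.one_le_pow _ _ hm1
  have hP5 : 5 ≤ P := by
    by_contra hcon
    push Not at hcon
    have h1 : q ^ P ≤ q ^ 4 := Nat.pow_le_pow_right hqpos (by omega)
    have h3 : 10 ^ 4 * 1 * q ^ 4 ≤ 10 ^ 4 * m ^ 3 * q ^ 4 := by
      apply Nat.mul_le_mul_right
      exact Nat.mul_le_mul_left _ hm3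
    have h4 : 0 < q ^ 4 := by positivity
    omega
  set D := insert 0 (Dn b U N) with hD
  set c := cf b U p with hc
  have h0 : 0 ∈ D := Finset.mem_insert_self _ _
  have hDc : D.card ≤ m := (Finset.card_insert_le _ _).trans hm
  have hDn : ∀ d ∈ D, 0 < d → d ∈ Dn b U N := by
    intro d hd hd0
    rcases Finset.mem_insert.1 hd with h | h
    · omega
    · exact h
  -- parameters
  set K2 := K + 2 with hK2
  set H := e * q ^ (K2 + P + 1) + 1 with hH
  -- exceptional sets
  set E1 := (range (N + 1)).filter (fun R => R / p ∈ B) with hE1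
  set E11 := (range (N + 1)).filter (fun R => R / p ∈ E1) with hE11
  set E := B ∪ (E1 ∪ E11) with hE
  have hE1c : E1.card ≤ e * p := (pre_card p hp0 B N).trans (Nat.mul_le_mul_right _ hbad)
  have hE11c : E11.card ≤ e * p * p := (pre_card p hp0 E1 N).trans (Nat.mul_le_mul_right _ hE1c)
  have hEc : E.card ≤ e * q := by
    refine (Finset.card_union_le _ _).trans ?_
    have h4 := Finset.card_union_le E1 E11
    have h5 : e + (e * p + e * p * p) ≤ e * q := by
      have : e + (e * p + e * p * p) = e * (1 + p + p ^ 2) := by ring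
      rw [this]
      apply Nat.mul_le_mul_left
      omega
    omega
  set E2 := B ∪ (range (N + 1)).filter (fun R => ¬ Far D H ((R / p : ℕ) : ℤ)) with hE2
  have hE2c : E2.card ≤ e + dia D H * p :=
    (Finset.card_union_le _ _).trans (Nat.add_le_add hbad (nf_card p hp0 D H N))
  have hdn : ∀ R ≤ N, R / p ≤ N := fun R hR => (Nat.div_le_self _ _).trans hR
  have htr : ∀ R ≤ N, R ∉ E → cum D c (R : ℤ) + cum D c ((R / p : ℕ) : ℤ) +
      cum D c ((R / p / p : ℕ) : ℤ) = 0 := by
    intro R hR hRE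
    rw [hE, Finset.mem_union, Finset.mem_union] at hRE
    push Not at hRE
    rw [cum_eq_sg b U p N hb hR, cum_eq_sg b U p N hb (hdn R hR),
      cum_eq_sg b U p N hb (hdn _ (hdn R hR))]
    apply htr0 R hR hRE.1
    intro h
    exact hRE.2.1 (Finset.mem_filter.2 ⟨Finset.mem_range.2 (by omega), h⟩)
  have hdil : ∀ R ≤ N, R ∉ E → cum D c ((R / q : ℕ) : ℤ) = cum D c (R : ℤ) := by
    intro R hR hRE
    have hRq : R / q = R / p / p / p := by
      rw [hq, Nat.div_div_eq_div_mul, Nat.div_div_eq_div_mul]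
      congr 1
      ring
    have t1 := htr R hR hRE
    rw [hE, Finset.mem_union, Finset.mem_union] at hRE
    push Not at hRE
    have t2 : sg b U p (R / p) + sg b U p (R / p / p) + sg b U p (R / p / p / p) = 0 := by
      apply htr0 (R / p) (hdn R hR)
      · intro h
        exact hRE.2.1 (Finset.mem_filter.2 ⟨Finset.mem_range.2 (by omega), h⟩)
      · intro h
        apply hRE.2.2
        rw [hE11, Finset.mem_filter]
        refine ⟨Finset.mem_range.2 (by omega), ?_⟩
        rw [hE1, Finset.mem_filter]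
        exact ⟨Finset.mem_range.2 (Nat.lt_succ_of_le (hdn R hR)), h⟩
    rw [hRq]
    rw [cum_eq_sg b U p N hb hR, cum_eq_sg b U p N hb (hdn R hR),
      cum_eq_sg b U p N hb (hdn _ (hdn R hR))] at t1
    rw [cum_eq_sg b U p N hb hR, cum_eq_sg b U p N hb (hdn _ (hdn _ (hdn R hR)))]
    linear_combination t2 - t1
  have hconv : ∀ R ≤ N, R ∉ E2 → ∑ i ∈ D, c i * cum D c ((R : ℤ) - i) =
      α * cum D c ((R / p : ℕ) : ℤ) + β * cum D c (R : ℤ) + γ := by
    intro R hR hRE
    rw [hE2, Finset.mem_union] at hRE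
    push Not at hRE
    rw [cum_eq_sg b U p N hb hR, cum_eq_sg b U p N hb (hdn R hR), ← hconv0 R hR hRE.1]
    have e1 : ∀ i ∈ range (R + 1), ((dlt b U i : ℤ) : ZMod p) * ((b : ZMod p)⁻¹) ^ i *
        sg b U p (R - i) = c i * cum D c ((R : ℤ) - i) := by
      intro i hi
      rw [Finset.mem_range] at hi
      rw [← cum_eq_sg b U p N hb (show R - i ≤ N by omega)]
      rw [show (((R - i : ℕ)) : ℤ) = (R : ℤ) - i by omega]
      rfl
    rw [Finset.sum_congr rfl e1]
    -- both sums are over the union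
    have key : ∀ i : ℕ, (i ∉ D ∨ R < i) → i ∈ D ∪ range (R + 1) →
        c i * cum D c ((R : ℤ) - i) = 0 := by
      intro i h _
      rcases h with h | h
      · by_cases hiR : R < i
        · have : cum D c ((R : ℤ) - i) = 0 := by
            unfold cum
            rw [Finset.filter_false_of_mem, Finset.sum_empty]
            intro j _
            omega
          rw [this, mul_zero]
        · have h2 : i ∉ Dn b U N := fun h' => h (Finset.mem_insert_of_mem h')
          have h3 : dlt b U i = 0 := by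
            by_contra h4
            exact h2 (Finset.mem_filter.2 ⟨Finset.mem_range.2 (by omega), h4⟩)
          simp [hc, cf, h3]
      · have : cum D c ((R : ℤ) - i) = 0 := by
          unfold cum
          rw [Finset.filter_false_of_mem, Finset.sum_empty]
          intro j _
          omega
        rw [this, mul_zero]
    have s1 : ∑ i ∈ D, c i * cum D c ((R : ℤ) - i) =
        ∑ i ∈ D ∪ range (R + 1), c i * cum D c ((R : ℤ) - i) := by
      apply Finset.sum_subset Finset.subset_union_left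
      intro i hi hnot
      exact key i (Or.inl hnot) hi
    have s2 : ∑ i ∈ range (R + 1), c i * cum D c ((R : ℤ) - i) =
        ∑ i ∈ D ∪ range (R + 1), c i * cum D c ((R : ℤ) - i) := by
      apply Finset.sum_subset Finset.subset_union_right
      intro i hi hnot
      rw [Finset.mem_range] at hnot
      exact key i (Or.inr (by omega)) hi
    rw [s1, s2]
  have hE2f : ∀ R ≤ N, R ∉ E2 → Far D H ((R / p : ℕ) : ℤ) := by
    intro R hR hRE
    by_contra h
    apply hRE
    rw [hE2, Finset.mem_union]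
    right
    exact Finset.mem_filter.2 ⟨Finset.mem_range.2 (by omega), h⟩
  -- more parameters
  set L := D.card * D.card * (2 * H + 1) + E2.card with hL
  set Sm := (3 + p + p ^ 2) * (dia D H + H) + 2 * H + L + 2 with hSm
  set R0 := q ^ (K + 1) * (2 * Sm) with hR0
  set Z0 := R0 + 600 * q ^ 3 * m * R0 + q ^ P * Zl with hZ0
  have hH1 : 1 ≤ H := by omega
  have hEH : E.card * q ^ (K2 + P) ≤ H := by
    have h5 := Nat.mul_le_mul_right (q ^ (K2 + P)) hEc
    have h6 : e * q * q ^ (K2 + P) = e * q ^ (K2 + P + 1) := by rw [pow_succ]; ring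
    omega
  have hEH2 : E.card * q ^ K2 ≤ H := by
    refine le_trans (Nat.mul_le_mul_left _ ?_) hEH
    exact Nat.pow_le_pow_right hqpos (by omega)
  have heH : e ≤ H := by
    have : e * 1 ≤ e * q ^ (K2 + P + 1) := Nat.mul_le_mul_left _ (Nat.one_le_pow _ _ hqpos)
    omega
  have hmm : m ≤ m ^ 2 := Nat.le_self_pow (by norm_num) m
  have hm2 : 1 ≤ m ^ 2 := Nat.one_le_pow _ _ hm1
  have hdia : dia D H ≤ 3 * (m ^ 2 * H) := by
    unfold dia
    calc D.card * (2 * H + 1) ≤ m ^ 2 * (3 * H) := Nat.mul_le_mul (hDc.trans hmm) (by omega)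
      _ = 3 * (m ^ 2 * H) := by ring
  have hHm : H ≤ m ^ 2 * H := Nat.le_mul_of_pos_left _ hm2
  have hDD : D.card * D.card ≤ m ^ 2 := by
    rw [pow_two]; exact Nat.mul_le_mul hDc hDc
  set G := m ^ 2 * H with hG
  have hG1 : 1 ≤ G := by omega
  have hLm : L ≤ (4 + 3 * p) * G := by
    have h1 : D.card * D.card * (2 * H + 1) ≤ 3 * G := by
      calc D.card * D.card * (2 * H + 1) ≤ m ^ 2 * (3 * H) := Nat.mul_le_mul hDD (by omega)
        _ = 3 * G := by rw [hG]; ring
    have h4 : dia D H * p ≤ 3 * G * p := Nat.mul_le_mul_right _ hdia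
    have h5 : (4 + 3 * p) * G = 4 * G + 3 * G * p := by ring
    omega
  have hSmm : Sm ≤ 2 * q * G := by
    have h1 : (3 + p + p ^ 2) * (dia D H + H) ≤ (3 + p + p ^ 2) * (4 * G) :=
      Nat.mul_le_mul_left _ (by omega)
    have h4 : (3 + p + p ^ 2) * (4 * G) + 2 * G + (4 + 3 * p) * G + 2 * G =
        (20 + 7 * p + 4 * p ^ 2) * G := by ring
    have h5 : (20 + 7 * p + 4 * p ^ 2) * G ≤ 2 * q * G := by
      apply Nat.mul_le_mul_right
      omega
    omega
  have hSm1 : 1 ≤ Sm := by omega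
  have hHSm : H ≤ Sm := by omega
  have hqK : 1 ≤ q ^ (K + 1) := Nat.one_le_pow _ _ hqpos
  have hSmR : 2 * Sm ≤ R0 := Nat.le_mul_of_pos_left _ hqK
  have hR0m : R0 ≤ 4 * (q ^ (K + 2) * G) := by
    calc R0 ≤ q ^ (K + 1) * (2 * (2 * q * G)) := by
          rw [hR0]
          exact Nat.mul_le_mul_left _ (Nat.mul_le_mul_left _ hSmm)
      _ = _ := by rw [pow_succ q (K + 1)]; ring
  have hR0Z : R0 ≤ Z0 := by omega
  -- size bound
  have hHbound : H ≤ (e + 1) * q ^ (K2 + P + 1) := by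
    rw [hH]
    have : (e + 1) * q ^ (K2 + P + 1) = e * q ^ (K2 + P + 1) + q ^ (K2 + P + 1) := by ring
    have h1 : 1 ≤ q ^ (K2 + P + 1) := Nat.one_le_pow _ _ hqpos
    omega
  set X : ℕ := D.card * D.card * (2 * R0 + 1) + (E2.card + D.card * Z0 +
      (D.card * (p * (2 * R0 + 1)) + p * Z0)) with hX
  have hR01 : 1 ≤ R0 := by omega
  have hpq' : p ≤ q := by omega
  have hXbound : X ≤ 1209 * (q ^ 4 * (m ^ 2 * R0)) + 2 * (m * q * (q ^ P * Zl)) := by
    have hb1 : D.card * D.card * (2 * R0 + 1) ≤ 3 * (m ^ 2 * R0) := by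
      calc D.card * D.card * (2 * R0 + 1) ≤ m ^ 2 * (3 * R0) := Nat.mul_le_mul hDD (by omega)
        _ = 3 * (m ^ 2 * R0) := by ring
    have hb2 : E2.card ≤ m ^ 2 * R0 := by
      have : E2.card ≤ R0 := by omega
      have h4 : R0 ≤ m ^ 2 * R0 := Nat.le_mul_of_pos_left _ hm2
      omega
    have hb3 : D.card * Z0 ≤ m * Z0 := Nat.mul_le_mul_right _ hDc
    have hb4 : D.card * (p * (2 * R0 + 1)) ≤ 3 * (q * (m ^ 2 * R0)) := by
      calc D.card * (p * (2 * R0 + 1)) ≤ m ^ 2 * (q * (3 * R0)) := by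
            apply Nat.mul_le_mul (hDc.trans hmm)
            apply Nat.mul_le_mul hpq'
            omega
        _ = 3 * (q * (m ^ 2 * R0)) := by ring
    have hb5 : p * Z0 ≤ q * Z0 := Nat.mul_le_mul_right _ hpq'
    have hb6 : m * Z0 + q * Z0 ≤ 2 * (m * q * Z0) := by
      have h5 : m * Z0 ≤ m * q * Z0 := by
        apply Nat.mul_le_mul_right
        exact Nat.le_mul_of_pos_right _ hqpos
      have h6 : q * Z0 ≤ m * q * Z0 := by
        apply Nat.mul_le_mul_right
        exact Nat.le_mul_of_pos_left _ hm1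
      omega
    have hb7 : m * q * Z0 = m * q * R0 + 600 * (q ^ 4 * (m ^ 2 * R0)) + m * q * (q ^ P * Zl) := by
      rw [hZ0]; ring
    have hb8 : m * q * R0 ≤ q ^ 4 * (m ^ 2 * R0) := by
      calc m * q * R0 ≤ m ^ 2 * q ^ 4 * R0 := by
            apply Nat.mul_le_mul_right
            exact Nat.mul_le_mul hmm (Nat.le_self_pow (by norm_num) q)
        _ = _ := by ring
    have hb9 : m ^ 2 * R0 ≤ q ^ 4 * (m ^ 2 * R0) := Nat.le_mul_of_pos_left _ (by positivity)
    have hb10 : q * (m ^ 2 * R0) ≤ q ^ 4 * (m ^ 2 * R0) := by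
      apply Nat.mul_le_mul_right
      exact Nat.le_self_pow (by norm_num) q
    omega
  have hXN : 4 * X ≤ N := by
    refine le_trans ?_ hsz
    have hR0' : q ^ 4 * (m ^ 2 * R0) ≤ 4 * ((e + 1) ^ 2 * m ^ 6 * q ^ (4 * K + 10 * P)) := by
      calc q ^ 4 * (m ^ 2 * R0) ≤ q ^ 4 * (m ^ 2 * (4 * (q ^ (K + 2) * (m ^ 2 * H)))) := by
            apply Nat.mul_le_mul_left; apply Nat.mul_le_mul_left; exact hR0m
        _ ≤ q ^ 4 * (m ^ 2 * (4 * (q ^ (K + 2) * (m ^ 2 * ((e + 1) * q ^ (K2 + P + 1)))))) := by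
            apply Nat.mul_le_mul_left; apply Nat.mul_le_mul_left
            apply Nat.mul_le_mul_left; apply Nat.mul_le_mul_left
            apply Nat.mul_le_mul_left; exact hHbound
        _ = 4 * ((e + 1) * m ^ 4 * q ^ (4 + (K + 2) + (K2 + P + 1))) := by
            rw [pow_add q (4 + (K + 2)), pow_add q 4]; ring
        _ ≤ 4 * ((e + 1) ^ 2 * m ^ 6 * q ^ (4 * K + 10 * P)) := by
            apply Nat.mul_le_mul_left
            apply Nat.mul_le_mul
            · apply Nat.mul_le_mul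
              · exact Nat.le_self_pow (by norm_num) _
              · exact Nat.pow_le_pow_right hm1 (by norm_num)
            · exact Nat.pow_le_pow_right hqpos (by omega)
    have hZl' : m * q * (q ^ P * Zl) ≤ (e + 1) ^ 2 * m ^ 6 * q ^ (4 * K + 10 * P) * Zl := by
      calc m * q * (q ^ P * Zl) = (1 * m * q ^ (P + 1)) * Zl := by rw [pow_succ]; ring
        _ ≤ ((e + 1) ^ 2 * m ^ 6 * q ^ (4 * K + 10 * P)) * Zl := by
            apply Nat.mul_le_mul_right
            apply Nat.mul_le_mul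
            · apply Nat.mul_le_mul
              · exact Nat.one_le_pow _ _ (by omega)
              · exact Nat.le_self_pow (by norm_num) _
            · exact Nat.pow_le_pow_right hqpos (by omega)
    set W := (e + 1) ^ 2 * m ^ 6 * q ^ (4 * K + 10 * P) with hW
    have e1 : 10 ^ 6 * (e + 1) ^ 2 * m ^ 6 * q ^ (4 * K + 10 * P) * (Zl + 1) =
        1000000 * (W * Zl) + 1000000 * W := by rw [hW]; ring
    rw [e1]
    omega
  -- the top of the range
  obtain ⟨w, hw, hwZ, hwX, σ, hσ, hR⟩ := top_exists (D := D) (c := c) (q := q) (N := N) (E := E)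
    (K1 := K2 + P) (E2 := E2) hq2 hp0 hγ h0 hconv (R0 := R0) (Z0 := Z0)
    (by omega) hR0Z (by omega)
  have hwbig : 600 * q ^ 3 * m * R0 + q ^ P * Zl ≤ w := by omega
  have hwN : 2 * w ≤ N := by omega
  -- the jumps
  set J := Jmp (UU q K2 E N) (fun x : ℕ => cum D c (x : ℤ)) (w / q ^ P) w with hJ
  have hJm : J.card + 1 ≤ m := (jumps_card w P h0).trans hDc
  have hq23 : q ^ 2 ≤ q ^ 3 := Nat.pow_le_pow_right hqpos (by norm_num)
  have hq14 : q ≤ q ^ 4 := Nat.le_self_pow (by norm_num) q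
  have hcore := single_core (D := D) (H := H) (c := c) (q := q) (K2 := K2) (N := N) (E := E)
    h2 h3 (by omega) h0 hEH2 hdil hp0 hq htr hconv hE2f (w := w) (R0 := R0) (Sm := Sm) (K := K)
    (P := P) (L := L) hσ
    (by omega) (by omega) (fun x _ h1 h3 => hR x h1 h3) hL (by omega) (by omega)
    (by
      refine le_trans ?_ (le_trans (Nat.le_add_right _ _) hwbig)
      calc 100 * q ^ 3 * R0 = 100 * q ^ 3 * 1 * R0 := by ring
        _ ≤ 600 * q ^ 3 * m * R0 := by
          apply Nat.mul_le_mul_right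
          apply Nat.mul_le_mul _ hm1
          apply Nat.mul_le_mul_right
          norm_num) hwN
    (by
      calc 6 * Sm ≤ 6 * (2 * q * G) := Nat.mul_le_mul_left _ hSmm
        _ = (12 * m ^ 2 * q) * H := by rw [hG]; ring
        _ ≤ (10 ^ 4 * m ^ 3 * q ^ 4) * H := by
            apply Nat.mul_le_mul_right
            apply Nat.mul_le_mul _ hq14
            apply Nat.mul_le_mul (by norm_num)
            exact Nat.pow_le_pow_right hm1 (by norm_num)
        _ ≤ q ^ P * H := Nat.mul_le_mul_right _ hP)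
    J hJ
    (by
      refine le_trans ?_ (le_trans (Nat.le_add_right _ _) hwbig)
      apply Nat.mul_le_mul_right
      apply Nat.mul_le_mul _ hJm
      apply Nat.mul_le_mul_left
      exact hq23)
    (by
      refine le_trans ?_ hP
      calc 100 * q ^ 4 * (J.card + 1) ≤ 100 * q ^ 4 * m := Nat.mul_le_mul_left _ hJm
        _ = 100 * m * q ^ 4 := by ring
        _ ≤ 10 ^ 4 * m ^ 3 * q ^ 4 := by
            apply Nat.mul_le_mul_right
            apply Nat.mul_le_mul (by norm_num)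
            exact Nat.le_self_pow (by norm_num) m)
  have hXR : R0 + 1 ≤ X := by
    have h1 : 1 ≤ D.card := Finset.card_pos.2 ⟨0, h0⟩
    have h3 : 2 * R0 + 1 ≤ D.card * D.card * (2 * R0 + 1) :=
      Nat.le_mul_of_pos_left _ (Nat.mul_pos h1 h1)
    omega
  -- the chains
  obtain ⟨A, δ, hA1, hA2, hA3, hA4⟩ := chains (D := D) (c := c) (q := q) (K2 := K2) (N := N)
    (E := E) hq2 hdil (w := w) (P := P) (by omega) hw (by omega) J hJ
  refine ⟨A, δ, ?_, ?_, ?_, ?_⟩
  · intro u hu
    refine le_trans ?_ (hA1 u hu)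
    rw [Nat.le_div_iff_mul_le (by positivity)]
    calc Zl * q ^ P = q ^ P * Zl := mul_comm _ _
      _ ≤ w := by omega
  · intro u hu k hk
    obtain ⟨a1, a2, a3, a4⟩ := hA2 u hu k (by omega)
    refine ⟨hDn _ a1 a2, a3, a4.trans ?_⟩
    have h1 : E.card * q ^ K2 ≤ e * q ^ (K + 2 * P) := by
      calc E.card * q ^ K2 ≤ e * q * q ^ K2 := Nat.mul_le_mul_right _ hEc
        _ = e * q ^ (K2 + 1) := by rw [pow_succ]; ring
        _ ≤ _ := Nat.mul_le_mul_left _ (Nat.pow_le_pow_right hqpos (by omega))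
    omega
  · intro u hu u' hu' k hk k' hk' h
    exact hA3 u hu u' hu' k (by omega) k' (by omega) h
  · have h1 : P * J.card ≤ P * (P * A.card) := Nat.mul_le_mul_left _ hA4
    have h3 : 12 * P * (P * A.card) = 12 * (P * (P * A.card)) := by ring
    omega

end Pool.Agent.H323R2.C3
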