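import Pool.Agent.H393R2.DE.Cls
import Pool.Agent.H323R2.C3.Iso

/-! Classification of the competing pairs. -/

set_option autoImplicit false

namespace Pool.Agent.H323R2.C3

open Finset
open H393R2.DE (Far cl cum wt dia cl_le sub_cl_le cum_far change_live Lvl ar1 ar2 ar3 window Adm adm_exists adm_far)

variable {F : Type*} [CommRing F]

variable {D : Finset ℕ} {H : ℕ} {c : ℕ → F}

theorem classify [IsDomain F] (h2 : (2 : F) ≠ 0) {N : ℕ} {E2 : Finset ℕ} {α β γ : F} {p : ℕ}
    (hp : 0 < p) (h0 : 0 ∈ D)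
    (hconv : ∀ R ≤ N, R ∉ E2 → ∑ i ∈ D, c i * cum D c ((R : ℤ) - i) =
      α * cum D c ((R / p : ℕ) : ℤ) + β * cum D c (R : ℤ) + γ)
    (hE2 : ∀ R ≤ N, R ∉ E2 → Far D H ((R / p : ℕ) : ℤ))
    {z g w R0 Sm X0 X q a t L : ℕ} (hL : L = D.card * D.card * (2 * H + 1) + E2.card)
    (hSm : (2 + p) * dia D H + 2 * H + L + 2 ≤ Sm) (hdia : 1 ≤ dia D H)
    (hq : 3 ≤ q) (hX0 : 3 ≤ X0) (hXX : q ^ 3 * X0 ≤ X) (hXS : X * (2 * Sm) ≤ R0)
    (hwz : w < q ^ 2 * (z + 1)) (hRw : 100 * q ^ 3 * R0 ≤ w) (hRg : 100 * R0 ≤ g)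
    (hR0 : 1 ≤ R0) (hwN : 2 * w ≤ N) (ha : Lvl D H c z g w R0 Sm X0 a)
    (ht : Lvl D H c z g w R0 Sm X t) :
    t < a ∧
    ((∃ i ∈ D, wt D H c (cl D H i) ≠ 0 ∧ a < i ∧ i ≤ 2 * a + Sm ∧
        (g : ℤ) ≤ 2 * (X * ((cl D H i : ℤ) - cl D H a)) ∧
        (X * ((cl D H i : ℤ) - cl D H a)) ≤ 2 * w) ∨
    (∃ i ∈ D, wt D H c (cl D H i) ≠ 0 ∧ a ≤ p * i ∧ i ≤ 2 * a + Sm ∧
        (g : ℤ) ≤ 2 * (X * ((p : ℤ) * cl D H i - cl D H a)) ∧
        (X * ((p : ℤ) * cl D H i - cl D H a)) ≤ 2 * w) ∨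
    (∃ i ∈ D, ∃ j ∈ D, wt D H c (cl D H i) ≠ 0 ∧ wt D H c (cl D H j) ≠ 0 ∧ j ≤ i ∧ i < a ∧
        g ≤ 2 * (X0 * (j - (dia D H + H))) ∧ dia D H ≤ j ∧
        (w : ℤ) ≤ 2 * q ^ 2 * (X * ((cl D H i : ℤ) + cl D H j - cl D H a)) ∧
        (X * ((cl D H i : ℤ) + cl D H j - cl D H a)) ≤ 2 * w)) := by
  classical
  have h2p : 2 * dia D H + p * dia D H = (2 + p) * dia D H := by ring
  have hSm0 : 2 * dia D H + 2 * H + L + 2 + p * dia D H ≤ Sm := by omega
  have hq3 : 1 ≤ q ^ 3 := Nat.one_le_pow _ _ (by omega)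
  have hX1 : 1 ≤ X := le_trans (Nat.mul_pos hq3 (by omega)) hXX
  have hX0X : X0 ≤ X := le_trans (Nat.le_mul_of_pos_left _ hq3) hXX
  have hXS0 : X0 * (2 * Sm) ≤ R0 := le_trans (Nat.mul_le_mul_right _ hX0X) hXS
  have hXS' : X * Sm ≤ R0 := le_trans (Nat.mul_le_mul_left _ (by omega)) hXS
  have hXS0' : X0 * Sm ≤ R0 := le_trans (Nat.mul_le_mul_right _ hX0X) hXS'
  have hzR : 3 * R0 < z := by
    by_contra hcon
    push Not at hcon
    have h1 : q ^ 2 * (z + 1) ≤ q ^ 2 * (4 * R0) := Nat.mul_le_mul_left _ (by omega)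
    have h3 : q ^ 2 * (4 * R0) ≤ 100 * q ^ 3 * R0 := by
      have : 100 * q ^ 3 * R0 = q ^ 2 * (100 * q * R0) := by ring
      rw [this]
      apply Nat.mul_le_mul_left
      apply Nat.mul_le_mul_right
      omega
    omega
  have hab := ha.big hXS0' hzR
  have htb := ht.big hXS' hzR
  set r := dia D H + H with hr
  -- `t` is much smaller than `a`
  have hta : 3 * t ≤ 2 * a + 1 := by
    have e1 : q ^ 3 * (X0 * t) ≤ 2 * w := by
      calc q ^ 3 * (X0 * t) = q ^ 3 * X0 * t := by ring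
        _ ≤ X * t := Nat.mul_le_mul_right _ hXX
        _ ≤ w + R0 := ht.upp
        _ ≤ 2 * w := by
            have : R0 ≤ 100 * q ^ 3 * R0 := Nat.le_mul_of_pos_left _ (by positivity)
            omega
    have e2 : z ≤ X0 * a := ha.low.trans (Nat.mul_le_mul_left _ (by omega))
    have e3 : 2 * w < q ^ 2 * (2 * (X0 * a) + 2) := by
      calc 2 * w < 2 * (q ^ 2 * (z + 1)) := by omega
        _ ≤ 2 * (q ^ 2 * (X0 * a + 1)) := by
            apply Nat.mul_le_mul_left
            apply Nat.mul_le_mul_left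
            omega
        _ = q ^ 2 * (2 * (X0 * a) + 2) := by ring
    have e4 : q ^ 2 * (q * (X0 * t)) < q ^ 2 * (2 * (X0 * a) + 2) := by
      calc q ^ 2 * (q * (X0 * t)) = q ^ 3 * (X0 * t) := by ring
        _ ≤ 2 * w := e1
        _ < _ := e3
    have e5 : q * (X0 * t) < 2 * (X0 * a) + 2 := Nat.lt_of_mul_lt_mul_left e4
    have e6 : 3 * (X0 * t) ≤ q * (X0 * t) := Nat.mul_le_mul_right _ hq
    have e7 : X0 * (3 * t) < X0 * (2 * a + 2) := by
      have h1 : X0 * (3 * t) = 3 * (X0 * t) := by ring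
      have h2 : X0 * (2 * a + 2) = 2 * (X0 * a) + 2 * X0 := by ring
      omega
    have := Nat.lt_of_mul_lt_mul_left e7
    omega
  have hda := sub_cl_le (D := D) (H := H) a
  have hca := cl_le (D := D) (H := H) a
  have hct := cl_le (D := D) (H := H) t
  have hdt := sub_cl_le (D := D) (H := H) t
  have hclne : cl D H a ≠ cl D H t := by omega
  refine ⟨by omega, ?_⟩
  -- the window
  have haN : 3 * a ≤ w + R0 := (Nat.mul_le_mul_right _ hX0).trans ha.upp
  have hR0w : R0 ≤ w := le_trans (Nat.le_mul_of_pos_left _ (by positivity)) hRw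
  obtain ⟨x, hx1, hx2, hx3, hx4⟩ := adm_exists (D := D) (H := H) E2 (a + t - 1 - L)
  obtain ⟨y, hy1, hy2, hy3, hy4⟩ := adm_exists (D := D) (H := H) E2 (a + t)
  rw [← hL] at hx2 hy2
  have hyN : y ≤ N := by omega
  have hxN : x ≤ N := by omega
  -- common bounds
  have hXr : X * Sm ≤ R0 := hXS'
  have hgapt := ht.gap
  have huppt := ht.upp
  have hlowb : ∀ dl : ℤ, (t : ℤ) ≤ dl + Sm → (g : ℤ) ≤ 2 * (X * dl) := by
    intro dl hdl
    have e1 : (X : ℤ) * t ≤ X * (dl + Sm) := mul_le_mul_of_nonneg_left hdl (Int.natCast_nonneg _)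
    have e2 : X * (t + dia D H + 1) ≤ X * t + X * Sm := by
      rw [← mul_add]; exact Nat.mul_le_mul_left _ (by omega)
    have e3 : (z : ℤ) + g < X * t + R0 := by
      have : z + g < X * t + R0 := by omega
      exact_mod_cast this
    have e4 : (X : ℤ) * (dl + Sm) = X * dl + X * Sm := by ring
    have e5 : (X : ℤ) * Sm ≤ R0 := by exact_mod_cast hXr
    have e6 : (3 : ℤ) * R0 < z := by exact_mod_cast hzR
    have e7 : (0 : ℤ) ≤ g := Int.natCast_nonneg _
    linarith
  have huppb : ∀ dl : ℤ, dl ≤ t + Sm → (X * dl : ℤ) ≤ 2 * w := by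
    intro dl hdl
    have e1 : (X : ℤ) * dl ≤ X * (t + Sm) := mul_le_mul_of_nonneg_left hdl (Int.natCast_nonneg _)
    have e3 : (X : ℤ) * t ≤ w + R0 := by exact_mod_cast huppt
    have e5 : (X : ℤ) * Sm ≤ R0 := by exact_mod_cast hXr
    have e4 : (X : ℤ) * (t + Sm) = X * t + X * Sm := by ring
    have e6 : (100 : ℤ) * R0 ≤ w := by
      have : 100 * R0 ≤ w := by
        refine le_trans ?_ hRw
        apply Nat.mul_le_mul_right
        omega
      exact_mod_cast this
    have e7 : (0 : ℤ) ≤ R0 := Int.natCast_nonneg _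
    linarith
  by_cases hc0 : cum D c (x : ℤ) = cum D c (y : ℤ)
  swap
  · -- a live position between `x` and `y`
    left
    have fx : Far D H (x : ℤ) := by
      have := adm_far hx3 h0
      simpa using this
    have fy : Far D H (y : ℤ) := by
      have := adm_far hy3 h0
      simpa using this
    obtain ⟨i, hi, f1, f2, f3⟩ := change_live fx fy (by omega) hc0
    have hci := cl_le (D := D) (H := H) i
    have hdi := sub_cl_le (D := D) (H := H) i
    refine ⟨i, hi, f3, by omega, by omega, hlowb _ (by omega), huppb _ (by omega)⟩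
  by_cases hc1 : cum D c ((x / p : ℕ) : ℤ) = cum D c ((y / p : ℕ) : ℤ)
  swap
  · right; left
    have hxy : x / p ≤ y / p := Nat.div_le_div_right (by omega)
    obtain ⟨i, hi, f1, f2, f3⟩ := change_live (hE2 x hxN hx4) (hE2 y hyN hy4)
      (by exact_mod_cast hxy) hc1
    have f1' : x / p < i := by exact_mod_cast f1
    have f2' : i < y / p := by exact_mod_cast f2
    have g1 : x < p * i := by
      have := (Nat.div_lt_iff_lt_mul hp).1 f1'
      rwa [mul_comm] at this
    have g2 : p * i ≤ y := by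
      have := (Nat.le_div_iff_mul_le hp).1 f2'.le
      rwa [mul_comm] at this
    have g3 : i ≤ p * i := Nat.le_mul_of_pos_left i hp
    have hci := cl_le (D := D) (H := H) i
    have hdi := sub_cl_le (D := D) (H := H) i
    have g4 : p * cl D H i ≤ p * i := Nat.mul_le_mul_left _ hci
    have g5 : p * i ≤ p * cl D H i + p * dia D H := by
      rw [← mul_add]; exact Nat.mul_le_mul_left _ hdi
    have g4' : (p : ℤ) * cl D H i ≤ ((p * i : ℕ) : ℤ) := by exact_mod_cast g4
    have g5' : ((p * i : ℕ) : ℤ) ≤ (p : ℤ) * cl D H i + ((p * dia D H : ℕ) : ℤ) := by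
      exact_mod_cast g5
    refine ⟨i, hi, f3, by omega, by omega, hlowb _ (by omega), huppb _ (by omega)⟩
  have hsum : ∑ i ∈ D, c i * (cum D c ((y : ℤ) - i) - cum D c ((x : ℤ) - i)) = 0 := by
    have h1 := hconv y hyN hy4
    have h3 := hconv x hxN hx4
    have : ∑ i ∈ D, c i * (cum D c ((y : ℤ) - i) - cum D c ((x : ℤ) - i)) =
        ∑ i ∈ D, c i * cum D c ((y : ℤ) - i) - ∑ i ∈ D, c i * cum D c ((x : ℤ) - i) := by
      rw [← Finset.sum_sub_distrib]
      apply Finset.sum_congr rfl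
      intro i _; ring
    rw [this, h1, h3, hc0, hc1, sub_self]
  obtain ⟨i, hi, j, hj, hiw, hjw, hxij, hijy, hji, hn1, hn2⟩ :=
    window h2 hx3 hy3 hsum (by omega) ha.mem ht.mem hclne ha.live ht.live (by omega) (by omega)
  have k1 : a + t ≤ i + j + L := ar1 hx1 hxij (by omega)
  have k2 : i + j ≤ a + t + L := ar2 hy2 hijy
  clear hx1 hx2 hy1 hy2 hxij hijy hx3 hy3 hx4 hy4 hyN hsum
  have hci := cl_le (D := D) (H := H) i
  have hdi := sub_cl_le (D := D) (H := H) i
  have hcj := cl_le (D := D) (H := H) j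
  have hdj := sub_cl_le (D := D) (H := H) j
  by_cases hcl : cl D H i = cl D H a
  · exfalso
    have h3 : cl D H j ≠ cl D H t := fun h => hn1 ⟨hcl, h⟩
    exact ht.iso j hj hjw h3 ⟨by omega, by omega⟩
  · rcases lt_trichotomy i a with hia | hia | hia
    · -- case II
      right; right
      have h3 : X0 * (i - r) < z := ha.first i hi hiw hia
      have h4 := ha.gap
      -- `g < X0 (a - i + dia + 1 + r)`
      have h5 : X0 * (a + dia D H + 1) ≤ X0 * (i - r) + X0 * (a - i + dia D H + 1 + r) := by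
        rw [← mul_add]; exact Nat.mul_le_mul_left _ (by omega)
      have h6' : a - i + dia D H + 1 + r ≤ j - r + 2 * Sm :=
        ar3 k1 (by omega) hia (by omega)
      have h6 : X0 * (a - i + dia D H + 1 + r) ≤ X0 * (j - r) + X0 * (2 * Sm) := by
        rw [← mul_add]; exact Nat.mul_le_mul_left _ h6'
      have h7 : g ≤ 2 * (X0 * (j - r)) := by omega
      have hdj2 : dia D H ≤ j := by
        by_contra hlt
        push Not at hlt
        have : j - r = 0 := by omega
        rw [this, mul_zero] at h7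
        omega
      refine ⟨i, hi, j, hj, hiw, hjw, hji, hia, h7, hdj2, ?_, ?_⟩
      · have e1 : (t : ℤ) ≤ ((cl D H i : ℤ) + cl D H j - cl D H a) + Sm := by omega
        have e2 : (X : ℤ) * t ≤ X * ((cl D H i : ℤ) + cl D H j - cl D H a) + X * Sm := by
          rw [← mul_add]
          exact mul_le_mul_of_nonneg_left e1 (Int.natCast_nonneg _)
        have e3 : (z : ℤ) ≤ X * t := by
          have : z ≤ X * t := ht.low.trans (Nat.mul_le_mul_left _ (by omega))
          exact_mod_cast this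
        have e4 : (X : ℤ) * Sm ≤ R0 := by exact_mod_cast hXS'
        set Y : ℤ := X * ((cl D H i : ℤ) + cl D H j - cl D H a) with hY
        have e5 : (z : ℤ) ≤ Y + R0 := by linarith
        have e6 : (w : ℤ) < q ^ 2 * (z + 1) := by exact_mod_cast hwz
        have e7 : (100 : ℤ) * q ^ 3 * R0 ≤ w := by exact_mod_cast hRw
        have hq' : (3 : ℤ) ≤ q := by exact_mod_cast hq
        have hR' : (1 : ℤ) ≤ R0 := by exact_mod_cast hR0
        have e8 : (q : ℤ) ^ 2 * (z + 1) ≤ q ^ 2 * (Y + 2 * R0) :=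
          mul_le_mul_of_nonneg_left (by linarith) (by positivity)
        have e9 : (4 : ℤ) * (q ^ 2 * R0) ≤ 100 * q ^ 3 * R0 := by
          have : (100 : ℤ) * q ^ 3 * R0 = 100 * q * (q ^ 2 * R0) := by ring
          rw [this]
          apply mul_le_mul_of_nonneg_right _ (by positivity)
          linarith
        have e10 : (q : ℤ) ^ 2 * (Y + 2 * R0) = q ^ 2 * Y + 2 * (q ^ 2 * R0) := by ring
        have e11 : (2 : ℤ) * q ^ 2 * Y = 2 * (q ^ 2 * Y) := by ring
        rw [e11]
        linarith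
      · have e1 : ((cl D H i : ℤ) + cl D H j - cl D H a) ≤ t + Sm := by omega
        have e2 : (X : ℤ) * ((cl D H i : ℤ) + cl D H j - cl D H a) ≤ X * (t + Sm) :=
          mul_le_mul_of_nonneg_left e1 (Int.natCast_nonneg _)
        have e3 : (X : ℤ) * t ≤ w + R0 := by exact_mod_cast ht.upp
        have e4 : (X : ℤ) * Sm ≤ R0 := by exact_mod_cast hXS'
        have e7 : (100 : ℤ) * q ^ 3 * R0 ≤ w := by exact_mod_cast hRw
        have hR' : (1 : ℤ) ≤ R0 := by exact_mod_cast hR0
        have hq3' : (1 : ℤ) ≤ (q : ℤ) ^ 3 := by exact_mod_cast hq3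
        have e8 : (2 : ℤ) * R0 ≤ 100 * q ^ 3 * R0 := by
          apply mul_le_mul_of_nonneg_right _ (by positivity)
          linarith
        have e9 : (X : ℤ) * (t + Sm) = X * t + X * Sm := by ring
        linarith
    · exact absurd (by rw [hia]) hcl
    · -- case I
      left
      have h3 : ¬ (i ≤ a + Sm ∧ a ≤ i + Sm) := ha.iso i hi hiw hcl
      have h4 : a + Sm < i := by
        by_contra hcon
        push Not at hcon
        exact h3 ⟨hcon, by omega⟩
      have hjt : j < t := by omega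
      have h5 : X * (j - r) < z := ht.first j hj hjw hjt
      have h6 := ht.gap
      have h7 : X * (t + dia D H + 1) ≤ X * (j - r) + X * (t - j + dia D H + 1 + r) := by
        rw [← mul_add]; exact Nat.mul_le_mul_left _ (by omega)
      have h8 : (X : ℤ) * ((t - j + dia D H + 1 + r : ℕ) : ℤ) ≤
          X * ((cl D H i : ℤ) - cl D H a) + X * (2 * Sm) := by
        rw [← mul_add]
        apply mul_le_mul_of_nonneg_left _ (Int.natCast_nonneg _)
        push_cast
        omega
      have h9 : (g : ℤ) < X * ((t - j + dia D H + 1 + r : ℕ) : ℤ) := by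
        have : g < X * (t - j + dia D H + 1 + r) := by omega
        exact_mod_cast this
      have h10 : (X : ℤ) * (2 * Sm) ≤ R0 := by exact_mod_cast hXS
      have h11 : (100 : ℤ) * R0 ≤ g := by exact_mod_cast hRg
      have hR' : (1 : ℤ) ≤ R0 := by exact_mod_cast hR0
      refine ⟨i, hi, hiw, hia, by omega, by linarith, ?_⟩
      have e1 : ((cl D H i : ℤ) - cl D H a) ≤ t + Sm := by omega
      have e2 : (X : ℤ) * ((cl D H i : ℤ) - cl D H a) ≤ X * (t + Sm) :=
        mul_le_mul_of_nonneg_left e1 (Int.natCast_nonneg _)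
      have e3 : (X : ℤ) * t ≤ w + R0 := by exact_mod_cast ht.upp
      have e4 : (X : ℤ) * Sm ≤ R0 := by exact_mod_cast hXS'
      have e7 : (100 : ℤ) * q ^ 3 * R0 ≤ w := by exact_mod_cast hRw
      have hq3' : (1 : ℤ) ≤ (q : ℤ) ^ 3 := by exact_mod_cast hq3
      have e8 : (2 : ℤ) * R0 ≤ 100 * q ^ 3 * R0 := by
        apply mul_le_mul_of_nonneg_right _ (by positivity)
        linarith
      have e9 : (X : ℤ) * (t + Sm) = X * t + X * Sm := by ring
      linarith

end Pool.Agent.H323R2.C3
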