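import Pool.Agent.H393R2.DE.Lev
import Pool.Agent.H323R2.C3.Lift

/-! The first live position after the gap, at every level (period three). -/

set_option autoImplicit false

namespace Pool.Agent.H323R2.C3

open Finset
open H393R2.DE (Jmp mem_Jmp exists_Jmp const_of_no_Jmp uu_exists lft lft_spec lift_far far_gap far_gt Far cl cum wt dia far_exists cl_le not_far_between le_cl sub_cl_le cl_far cl_mono far_lt_iff far_le_iff cum_sub cum_far change_live live_change gap_exists)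
open Pool.Agent.H393R2.DC (UU mem_UU compl_card)

/-- three far points `y`, `y / p`, `y / p / p` -/
theorem three_far {D : Finset ℕ} {H : ℕ} (p : ℕ) (hp : 0 < p) (a : ℕ) :
    ∃ y : ℕ, a ≤ y ∧ y ≤ a + (1 + p + p ^ 2) * dia D H ∧ Far D H (y : ℤ) ∧
      Far D H ((y / p : ℕ) : ℤ) ∧ Far D H ((y / p / p : ℕ) : ℤ) := by
  classical
  have key : ∀ r : ℕ, 0 < r → ∀ M : ℕ, ((Finset.Icc a M).filter
      (fun y : ℕ => ¬ Far D H ((y / r : ℕ) : ℤ))).card ≤ r * dia D H := by
    intro r hr M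
    have hsub : (Finset.Icc a M).filter (fun y : ℕ => ¬ Far D H ((y / r : ℕ) : ℤ)) ⊆
        D.biUnion (fun d => Finset.Ico (r * (d - H)) (r * (d + H + 1))) := by
      intro y hy
      rw [Finset.mem_filter] at hy
      have h1 := hy.2
      unfold Far at h1
      push Not at h1
      obtain ⟨d, hd, h2⟩ := h1
      rw [Finset.mem_biUnion]
      refine ⟨d, hd, ?_⟩
      rw [Finset.mem_Ico]
      rw [abs_le] at h2
      have e12 : d - H ≤ y / r ∧ y / r < d + H + 1 := by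
        generalize y / r = v at h2 ⊢
        omega
      have e1 := e12.1
      have e2 := e12.2
      constructor
      · have := (Nat.le_div_iff_mul_le hr).1 e1
        rwa [mul_comm] at this
      · have := (Nat.div_lt_iff_lt_mul hr).1 e2
        rwa [mul_comm] at this
    refine (Finset.card_le_card hsub).trans (Finset.card_biUnion_le.trans ?_)
    have : ∀ d ∈ D, (Finset.Ico (r * (d - H)) (r * (d + H + 1))).card ≤ r * (2 * H + 1) := by
      intro d _
      rw [Nat.card_Ico, ← Nat.mul_sub]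
      apply Nat.mul_le_mul_left
      omega
    refine (Finset.sum_le_sum this).trans ?_
    rw [Finset.sum_const, smul_eq_mul]
    unfold dia
    exact le_of_eq (by ring)
  by_contra hcon
  push Not at hcon
  set M := a + (1 + p + p ^ 2) * dia D H with hM
  have hsub : Finset.Icc a M ⊆
      ((Finset.Icc a M).filter (fun y : ℕ => ¬ Far D H ((y / 1 : ℕ) : ℤ)) ∪
      (Finset.Icc a M).filter (fun y : ℕ => ¬ Far D H ((y / p : ℕ) : ℤ))) ∪
      (Finset.Icc a M).filter (fun y : ℕ => ¬ Far D H ((y / (p ^ 2) : ℕ) : ℤ)) := by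
    intro y hy
    rw [Finset.mem_union, Finset.mem_union, Finset.mem_filter, Finset.mem_filter,
      Finset.mem_filter]
    by_cases h1 : Far D H (y : ℤ)
    · by_cases h2 : Far D H ((y / p : ℕ) : ℤ)
      · right
        refine ⟨hy, ?_⟩
        rw [Finset.mem_Icc] at hy
        have := hcon y hy.1 hy.2 h1 h2
        rwa [Nat.div_div_eq_div_mul, ← pow_two] at this
      · exact Or.inl (Or.inr ⟨hy, h2⟩)
    · refine Or.inl (Or.inl ⟨hy, ?_⟩)
      rwa [Nat.div_one]
  have h1 := Finset.card_le_card hsub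
  have h2 := Finset.card_union_le
    ((Finset.Icc a M).filter (fun y : ℕ => ¬ Far D H ((y / 1 : ℕ) : ℤ)) ∪
      (Finset.Icc a M).filter (fun y : ℕ => ¬ Far D H ((y / p : ℕ) : ℤ)))
    ((Finset.Icc a M).filter (fun y : ℕ => ¬ Far D H ((y / (p ^ 2) : ℕ) : ℤ)))
  have h3 := Finset.card_union_le
    ((Finset.Icc a M).filter (fun y : ℕ => ¬ Far D H ((y / 1 : ℕ) : ℤ)))
    ((Finset.Icc a M).filter (fun y : ℕ => ¬ Far D H ((y / p : ℕ) : ℤ)))
  have k1 := key 1 one_pos M
  have k2 := key p hp M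
  have k3 := key (p ^ 2) (pow_pos hp 2) M
  rw [Nat.card_Icc] at h1
  have e : (1 + p + p ^ 2) * dia D H = 1 * dia D H + p * dia D H + p ^ 2 * dia D H := by ring
  omega

variable {F : Type*} [CommRing F]

section

variable {D : Finset ℕ} {H : ℕ} {c : ℕ → F} {q K2 N : ℕ} {E : Finset ℕ}

theorem div_near {p y y0 H : ℕ} (hp : 0 < p) (h1 : y0 ≤ y + H) (h2 : y ≤ y0 + H) :
    y0 / p ≤ y / p + H ∧ y / p ≤ y0 / p + H := by
  have hH : H ≤ p * H := Nat.le_mul_of_pos_left H hp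
  constructor
  · calc y0 / p ≤ (y + p * H) / p := Nat.div_le_div_right (by omega)
      _ = y / p + H := Nat.add_mul_div_left _ _ hp
  · calc y / p ≤ (y0 + p * H) / p := Nat.div_le_div_right (by omega)
      _ = y0 / p + H := Nat.add_mul_div_left _ _ hp

/-- the first live position after the gap -/
theorem level_exists [IsDomain F] (h3 : (3 : F) ≠ 0) (hq : 3 ≤ q) (h0 : 0 ∈ D)
    (hBH : E.card * q ^ K2 ≤ H)
    (hdil : ∀ R ≤ N, R ∉ E → cum D c ((R / q : ℕ) : ℤ) = cum D c (R : ℤ))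
    {p : ℕ} (hp : 0 < p) (hpq : q = p ^ 3)
    (htr : ∀ R ≤ N, R ∉ E → cum D c (R : ℤ) + cum D c ((R / p : ℕ) : ℤ) +
      cum D c ((R / p / p : ℕ) : ℤ) = 0)
    {w R0 z g Sm K k : ℕ} {σ : F} (hσ : σ ≠ 0) (hkK : k ≤ K) (hK : K + 1 ≤ K2)
    (hR : ∀ x ∈ UU q K2 E N, w ≤ x → x ≤ w + R0 → cum D c (x : ℤ) = σ) (hN : w + R0 ≤ N)
    (hz0 : 0 < z) (hz1 : z + g ≤ w / q)
    (hgap : ∀ x ∈ UU q K2 E N, ∀ y ∈ UU q K2 E N, z ≤ x → x ≤ z + g → z ≤ y → y ≤ z + g →
      cum D c (x : ℤ) = cum D c (y : ℤ))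
    (hSm : (3 + p + p ^ 2) * dia D H + H + 1 ≤ Sm) (hR0 : q ^ (K + 1) * Sm ≤ R0)
    (hg : q ^ K * Sm ≤ g) (_hRw : R0 ≤ 2 * w) :
    ∃ t ∈ D, wt D H c (cl D H t) ≠ 0 ∧ z ≤ q ^ k * (t - (dia D H + H)) ∧ q ^ k * t ≤ w + R0 ∧
      z + g < q ^ k * (t + dia D H + 1) ∧
      ∀ j ∈ D, wt D H c (cl D H j) ≠ 0 → j < t → q ^ k * (j - (dia D H + H)) < z := by
  classical
  set V := UU q K2 E N with hV
  have hq2 : 2 ≤ q := by omega
  have hqk : 0 < q ^ k := pow_pos (by omega) _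
  have hpk : q ^ k ≤ q ^ K := Nat.pow_le_pow_right (by omega) hkK
  have hpk2 : q ^ k ≤ q ^ (K + 1) := Nat.pow_le_pow_right (by omega) (by omega)
  have hwq : w / q ≤ w := Nat.div_le_self _ _
  have hSm2 : 2 * dia D H + H + 1 + (1 + p + p ^ 2) * dia D H ≤ Sm := by
    have : (3 + p + p ^ 2) * dia D H = 2 * dia D H + (1 + p + p ^ 2) * dia D H := by ring
    omega
  have up : ∀ (X g : ℕ), 0 < X → H ≤ g → X * (g - H) + H ≤ X * g := by
    intro X g hX hg
    calc X * (g - H) + H ≤ X * (g - H) + X * H := by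
          have := Nat.le_mul_of_pos_left H hX
          omega
      _ = X * g := by rw [← mul_add]; congr 1; omega
  have up2 : ∀ (X g : ℕ), 0 < X → X * g < X * (g + H + 1) := by
    intro X g hX
    exact Nat.mul_lt_mul_of_pos_left (by omega) hX
  have hzlt : z < q ^ k * (z / q ^ k + 1) := Nat.lt_mul_div_succ z hqk
  have hzle : q ^ k * (z / q ^ k) ≤ z := Nat.mul_div_le _ _
  have hwlt0 : w < q ^ k * (w / q ^ k + 1) := Nat.lt_mul_div_succ w hqk
  have hwle0 : q ^ k * (w / q ^ k) ≤ w := Nat.mul_div_le _ _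
  have h1w : ∀ g1 : ℕ, q ^ k * g1 ≤ w / q → g1 ≤ w / q ^ k / q := by
    intro g1 h
    rw [Nat.div_div_eq_div_mul, mul_comm, ← Nat.div_div_eq_div_mul,
      Nat.le_div_iff_mul_le hqk, mul_comm]
    exact h
  generalize hQz : z / q ^ k = Qz at *
  generalize hQw0 : w / q ^ k = Qw0 at *
  obtain ⟨g1, hg1a, hg1b, hg1⟩ := far_exists (D := D) (H := H) (Qz + 1 + (dia D H + H))
  have hg1z : q ^ k * g1 ≤ z + g := by
    calc q ^ k * g1 ≤ q ^ k * (Qz + (2 * dia D H + H + 1)) :=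
          Nat.mul_le_mul_left _ (by omega)
      _ = q ^ k * Qz + q ^ k * (2 * dia D H + H + 1) := by ring
      _ ≤ z + q ^ K * Sm := Nat.add_le_add hzle (Nat.mul_le_mul hpk (by omega))
      _ ≤ z + g := by omega
  have hg1l : z ≤ q ^ k * (g1 - H) := by
    refine le_trans hzlt.le (Nat.mul_le_mul_left _ (by omega))
  -- the three far points
  obtain ⟨y0, hy0a, hy0b, hy0, hy1, hy2⟩ := three_far (D := D) (H := H) p hp (Qw0 + 1 + H)
  have hy0u : q ^ k * y0 ≤ w + R0 := by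
    calc q ^ k * y0 ≤ q ^ k * (Qw0 + Sm) :=
          Nat.mul_le_mul_left _ (by omega)
      _ = q ^ k * Qw0 + q ^ k * Sm := by ring
      _ ≤ w + q ^ (K + 1) * Sm := Nat.add_le_add hwle0 (Nat.mul_le_mul_right _ hpk2)
      _ ≤ w + R0 := by omega
  have hy0l : w ≤ q ^ k * (y0 - H) :=
    le_trans hwlt0.le (Nat.mul_le_mul_left _ (by omega))
  have hu3 := up (q ^ k) y0 hqk (by omega)
  obtain ⟨c1, c2, c3⟩ := lift_far (q := q) (K1 := K2) (N := N) (E := E) (H := H) hq2 hBH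
    (k := k) (g := y0) (by omega)
  set x := lft (UU q K2 E N) (q ^ k * (y0 - H)) with hx
  have hxlt : x < q ^ k * (y0 + H + 1) := by
    have := up2 (q ^ k) y0 hqk; omega
  have v3 := near_far hq2 hdil hy0 (by omega) c1 c2 hxlt
  rw [hR _ c1 (by omega) (by omega)] at v3
  -- the trace relation
  have hxk := iter (s := fun R : ℕ => cum D c (R : ℤ)) hdil c1 k (by omega)
  have hxE := (mem_UU.1 c1).2 k (by omega)
  have hxN := (mem_UU.1 c1).1
  have ht := htr (x / q ^ k) ((Nat.div_le_self _ _).trans hxN) hxE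
  set y := x / q ^ k with hy
  have hn0 : y0 ≤ y + H ∧ y ≤ y0 + H := by
    have h4 : y0 - H ≤ x / q ^ k := by
      rw [Nat.le_div_iff_mul_le hqk, mul_comm]; exact c2
    have h5 : x / q ^ k < y0 + H + 1 := by
      rw [Nat.div_lt_iff_lt_mul hqk, mul_comm]; exact hxlt
    omega
  have hn1 := div_near hp hn0.1 hn0.2
  have hn2 := div_near hp hn1.1 hn1.2
  have v0 : cum D c (y : ℤ) = cum D c (y0 : ℤ) := cum_far hy0 (by rw [abs_le]; constructor <;> omega)
  have v1 : cum D c ((y / p : ℕ) : ℤ) = cum D c ((y0 / p : ℕ) : ℤ) :=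
    cum_far hy1 (by rw [abs_le]; constructor <;> omega)
  have v2 : cum D c ((y / p / p : ℕ) : ℤ) = cum D c ((y0 / p / p : ℕ) : ℤ) :=
    cum_far hy2 (by rw [abs_le]; constructor <;> omega)
  rw [v0, v1, v2, v3] at ht
  have hdp : y0 / p / p ≤ y0 / p := Nat.div_le_self _ _
  have hdp0 : y0 / p ≤ y0 := Nat.div_le_self _ _
  have hne : ∃ y' : ℕ, y0 / p / p ≤ y' ∧ y' ≤ y0 ∧ Far D H (y' : ℤ) ∧ cum D c (y' : ℤ) ≠ σ := by
    by_cases h : cum D c ((y0 / p : ℕ) : ℤ) = σ
    · refine ⟨y0 / p / p, le_rfl, by omega, hy2, fun h' => ?_⟩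
      rw [h, h'] at ht
      have : (3 : F) * σ = 0 := by linear_combination ht
      rcases mul_eq_zero.1 this with h4 | h4
      · exact h3 h4
      · exact hσ h4
    · exact ⟨y0 / p, hdp, hdp0, hy1, h⟩
  -- order
  have h12 : g1 ≤ y0 / p / p := by
    have h1 : g1 ≤ Qw0 / q := h1w g1 (by omega)
    have h2 : Qw0 / q ≤ y0 / p / p := by
      rw [hpq, Nat.div_div_eq_div_mul y0]
      calc Qw0 / p ^ 3 ≤ y0 / p ^ 3 := Nat.div_le_div_right (by omega)
        _ ≤ y0 / (p * p) := Nat.div_le_div_left (by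
            calc p * p = p ^ 2 := (pow_two p).symm
              _ ≤ p ^ 3 := Nat.pow_le_pow_right hp (by norm_num)) (Nat.mul_pos hp hp)
    omega
  -- a live position
  have hlive : ∃ d ∈ D, g1 < d ∧ d < y0 ∧ wt D H c (cl D H d) ≠ 0 := by
    by_cases hc : cum D c (g1 : ℤ) = σ
    · obtain ⟨y', e1, e2, e3, e4⟩ := hne
      obtain ⟨d, hd, f1, f2, f3⟩ := change_live hg1 e3 (by omega) (by rw [hc]; exact e4.symm)
      exact ⟨d, hd, by omega, by omega, f3⟩
    · obtain ⟨d, hd, e1, e2, e3⟩ := change_live hg1 hy0 (by omega) (by rw [v3]; exact hc)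
      exact ⟨d, hd, by omega, by omega, e3⟩
  obtain ⟨d, hd, hd1, hd2, hd3⟩ := hlive
  set T := D.filter (fun t => wt D H c (cl D H t) ≠ 0 ∧ z ≤ q ^ k * (t - (dia D H + H))) with hT
  have hdT : d ∈ T := by
    rw [hT, Finset.mem_filter]
    refine ⟨hd, hd3, le_trans hzlt.le (Nat.mul_le_mul_left _ (by omega))⟩
  set t := T.min' ⟨d, hdT⟩ with ht'
  have htT : t ∈ T := Finset.min'_mem _ _
  have htmin : ∀ x ∈ T, t ≤ x := fun x hx => Finset.min'_le _ _ hx
  obtain ⟨htD, htw, htz⟩ := Finset.mem_filter.1 htT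
  have htd : t ≤ d := htmin d hdT
  refine ⟨t, htD, htw, htz, ?_, ?_, ?_⟩
  · calc q ^ k * t ≤ q ^ k * y0 := Nat.mul_le_mul_left _ (by omega)
      _ ≤ w + R0 := hy0u
  · by_contra hcon
    push Not at hcon
    have hdia : dia D H ≤ t := by
      by_contra hlt
      push Not at hlt
      have : t - (dia D H + H) = 0 := by omega
      rw [this, mul_zero] at htz
      omega
    exact no_live hq2 h0 hBH hdil (show k ≤ K2 by omega) htD hdia htw htz hcon (by omega) hgap
  · intro j hj hjw hjt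
    by_contra hcon
    push Not at hcon
    have := htmin j (Finset.mem_filter.2 ⟨hj, hjw, hcon⟩)
    omega

end

end Pool.Agent.H323R2.C3
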