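import Pool.Agent.H393R2.DE.Core
import Pool.Agent.H323R2.C3.Cls
import Pool.Agent.H323R2.C3.Lev

/-! The single prime theorem: the number of levels is bounded by the number of jumps. -/

set_option autoImplicit false

namespace Pool.Agent.H323R2.C3

open Finset
open H393R2.DE (Jmp mem_Jmp exists_Jmp const_of_no_Jmp uu_exists lft lft_spec lift_far far_gap far_gt Far cl cum wt dia far_exists cl_le not_far_between le_cl sub_cl_le cl_far cl_mono far_lt_iff far_le_iff cum_sub cum_far change_live live_change gap_exists lac_levels Lvl div_le_of_mul)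
open Pool.Agent.H393R2.DC (UU mem_UU compl_card)

variable {F : Type*} [CommRing F]

variable {D : Finset ℕ} {H : ℕ} {c : ℕ → F} {q K2 N : ℕ} {E : Finset ℕ}

theorem single_core [IsDomain F] (h2 : (2 : F) ≠ 0) (h3 : (3 : F) ≠ 0) (hq : 3 ≤ q) (h0 : 0 ∈ D)
    (hBH : E.card * q ^ K2 ≤ H)
    (hdil : ∀ R ≤ N, R ∉ E → cum D c ((R / q : ℕ) : ℤ) = cum D c (R : ℤ))
    {p : ℕ} (hp : 0 < p) (hpq : q = p ^ 3)
    (htr : ∀ R ≤ N, R ∉ E → cum D c (R : ℤ) + cum D c ((R / p : ℕ) : ℤ) +
      cum D c ((R / p / p : ℕ) : ℤ) = 0)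
    {E2 : Finset ℕ} {α β γ : F}
    (hconv : ∀ R ≤ N, R ∉ E2 → ∑ i ∈ D, c i * cum D c ((R : ℤ) - i) =
      α * cum D c ((R / p : ℕ) : ℤ) + β * cum D c (R : ℤ) + γ)
    (hE2 : ∀ R ≤ N, R ∉ E2 → Far D H ((R / p : ℕ) : ℤ))
    {w R0 Sm K P L : ℕ} {σ : F} (hσ : σ ≠ 0) (hK : K + 1 ≤ K2) (hP : 4 ≤ P)
    (hR : ∀ x ∈ UU q K2 E N, w ≤ x → x ≤ w + R0 → cum D c (x : ℤ) = σ)
    (hL : L = D.card * D.card * (2 * H + 1) + E2.card)
    (hSm : (3 + p + p ^ 2) * (dia D H + H) + 2 * H + L + 2 ≤ Sm)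
    (hR0 : q ^ (K + 1) * (2 * Sm) ≤ R0)
    (hRw : 100 * q ^ 3 * R0 ≤ w) (hwN : 2 * w ≤ N) (hPH : 6 * Sm ≤ q ^ P * H)
    (J : Finset ℕ)
    (hJ : J = Jmp (UU q K2 E N) (fun x : ℕ => cum D c (x : ℤ)) (w / q ^ P) w)
    (hwJ : 600 * q ^ 2 * (J.card + 1) * R0 ≤ w) (hPJ : 100 * q ^ 4 * (J.card + 1) ≤ q ^ P) :
    K ≤ 12 * (P * J.card) + 4 * P + 8 := by
  classical
  have hSmA : (3 + p + p ^ 2) * dia D H + H + 1 ≤ Sm := by
    have : (3 + p + p ^ 2) * (dia D H + H) = (3 + p + p ^ 2) * dia D H + (3 + p + p ^ 2) * H := by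
      ring
    omega
  have hSmB : (2 + p) * dia D H + 2 * H + L + 2 ≤ Sm := by
    have e1 : (2 + p) * dia D H ≤ (3 + p + p ^ 2) * (dia D H + H) :=
      Nat.mul_le_mul (by omega) (by omega)
    omega
  have hSmC : p * (dia D H + H) ≤ Sm := by
    have e1 : p * (dia D H + H) ≤ (3 + p + p ^ 2) * (dia D H + H) :=
      Nat.mul_le_mul_right _ (by omega)
    omega
  have hSmD : 2 * dia D H + 2 * H + L + 2 ≤ Sm := by
    have e1 : 2 * dia D H ≤ (2 + p) * dia D H := Nat.mul_le_mul_right _ (by omega)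
    omega
  replace hPJ : 100 * q ^ 3 * (J.card + 1) ≤ q ^ P ∧ 3 * q ^ 4 ≤ q ^ P := by
    constructor
    · refine le_trans ?_ hPJ
      apply Nat.mul_le_mul_right
      apply Nat.mul_le_mul_left
      exact Nat.pow_le_pow_right (by omega) (by norm_num)
    · refine le_trans ?_ hPJ
      calc 3 * q ^ 4 ≤ 100 * q ^ 4 := Nat.mul_le_mul_right _ (by norm_num)
        _ ≤ 100 * q ^ 4 * (J.card + 1) := Nat.le_mul_of_pos_right _ (Nat.succ_pos _)
  obtain ⟨hPJ, hPJ4⟩ := hPJ
  set V := UU q K2 E N with hV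
  set s : ℕ → F := fun x : ℕ => cum D c (x : ℤ) with hs
  set n := J.card with hn
  have hq2 : 2 ≤ q := by omega
  have hqpos : 0 < q := by omega
  have hdia1 : 1 ≤ dia D H := by
    unfold dia
    exact Nat.mul_pos (Finset.card_pos.2 ⟨0, h0⟩) (by omega)
  have hSm1 : 1 ≤ Sm := by omega
  have hR01 : 1 ≤ R0 := by
    have : 1 ≤ q ^ (K + 1) * (2 * Sm) := Nat.mul_pos (by positivity) (by omega)
    omega
  have hR0' : q ^ (K + 1) * Sm ≤ R0 := le_trans (Nat.mul_le_mul_left _ (by omega)) hR0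
  have hq3 : 27 ≤ q ^ 3 := by
    calc 27 = 3 ^ 3 := by norm_num
      _ ≤ q ^ 3 := Nat.pow_le_pow_left hq 3
  have hR0w : 100 * R0 ≤ w := by
    refine le_trans ?_ hRw
    apply Nat.mul_le_mul_right
    omega
  -- the gap
  obtain ⟨z, g, hz1, hz2, hz3, hz4⟩ := gap_exists (V := V) (s := s) (q := q) (P := P) (w := w)
    hq (by omega) (by
      rw [← hJ]
      refine le_trans ?_ hwJ
      calc 2 * q * (J.card + 1) * q = 2 * q ^ 2 * (J.card + 1) * 1 := by ring
        _ ≤ 600 * q ^ 2 * (n + 1) * R0 := by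
          apply Nat.mul_le_mul _ hR01
          apply Nat.mul_le_mul_right
          apply Nat.mul_le_mul_right
          norm_num) (by
      refine le_trans ?_ hRw
      calc 6 * q ^ 2 ≤ 100 * q ^ 3 := by
            apply Nat.mul_le_mul (by norm_num)
            exact Nat.pow_le_pow_right hqpos (by norm_num)
        _ ≤ 100 * q ^ 3 * R0 := Nat.le_mul_of_pos_right _ hR01)
  rw [← hJ] at hz3
  replace hz3 : w ≤ 6 * q * (n + 1) * g := hz3
  have hwz : w < q ^ 2 * (z + 1) := by
    have h1 : w < q ^ 2 * (w / q ^ 2 + 1) := Nat.lt_mul_div_succ w (by positivity)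
    have h2 : q ^ 2 * (w / q ^ 2 + 1) ≤ q ^ 2 * (z + 1) := Nat.mul_le_mul_left _ (by omega)
    omega
  have hz0 : 0 < z := by
    by_contra hcon
    have hz0 : z = 0 := by omega
    rw [hz0] at hwz
    have h1 : q ^ 2 ≤ q ^ 3 := Nat.pow_le_pow_right hqpos (by norm_num)
    have h3 : q ^ 3 ≤ 100 * q ^ 3 * R0 := by
      calc q ^ 3 = 1 * q ^ 3 * 1 := by ring
        _ ≤ 100 * q ^ 3 * R0 := by
          apply Nat.mul_le_mul _ hR01
          apply Nat.mul_le_mul_right
          norm_num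
    omega
  have hRg : 100 * R0 ≤ g := by
    by_contra hcon
    push Not at hcon
    have h1 : 6 * q * (n + 1) * g < 6 * q * (n + 1) * (100 * R0) := by
      apply Nat.mul_lt_mul_of_pos_left hcon
      positivity
    have h3 : 6 * q * (n + 1) * (100 * R0) ≤ 600 * q ^ 2 * (n + 1) * R0 := by
      calc 6 * q * (n + 1) * (100 * R0) = q * (600 * (n + 1) * R0) := by ring
        _ ≤ q ^ 2 * (600 * (n + 1) * R0) := by
            apply Nat.mul_le_mul_right
            exact Nat.le_self_pow (by norm_num) q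
        _ = _ := by ring
    omega
  -- levels
  have hlev : ∀ k : ℕ, k ≤ K → ∃ t : ℕ, t ∈ D ∧ wt D H c (cl D H t) ≠ 0 ∧
      z ≤ q ^ k * (t - (dia D H + H)) ∧ q ^ k * t ≤ w + R0 ∧
      z + g < q ^ k * (t + dia D H + 1) ∧
      ∀ j ∈ D, wt D H c (cl D H j) ≠ 0 → j < t → q ^ k * (j - (dia D H + H)) < z := by
    intro k hk
    obtain ⟨t, a1, a2, a3, a4, a5, a6⟩ := level_exists (D := D) (H := H) (c := c) (q := q)
      (K2 := K2) (N := N) (E := E) h3 hq h0 hBH hdil hp hpq htr hσ hk hK hR (by omega) hz0 hz2 hz4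
      hSmA hR0' (by
        have : q ^ K ≤ q ^ (K + 1) := Nat.pow_le_pow_right hqpos (by omega)
        have := Nat.mul_le_mul_right Sm this
        omega) (by omega)
    exact ⟨t, a1, a2, a3, a4, a5, a6⟩
  choose! t ht using hlev
  -- non-isolated levels
  set S0 : Finset ℕ := (Finset.Icc 1 K).filter (fun k => ∃ j ∈ D, wt D H c (cl D H j) ≠ 0 ∧
      cl D H j ≠ cl D H (t k) ∧ j ≤ t k + Sm ∧ t k ≤ j + Sm) with hS0
  have hS0c : S0.card ≤ P * n := by
    rw [hn, hJ]
    refine iso_count hq h0 hBH hdil hK hP (by omega) hz1 (show 2 * dia D H + 2 * H + 1 ≤ Sm by omega)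
      hR0' hRw hPH t (fun k _ hk => ⟨(ht k hk).1, (ht k hk).2.1, (ht k hk).2.2.1,
        (ht k hk).2.2.2.1⟩) S0 ?_
    intro k hk
    rw [hS0, Finset.mem_filter, Finset.mem_Icc] at hk
    exact ⟨hk.1.1, hk.1.2, hk.2⟩
  by_contra hcon
  push Not at hcon
  -- choose an isolated level
  obtain ⟨k0, hk0, hk0S⟩ : ∃ k0 ∈ Finset.Icc 1 (K / 2), k0 ∉ S0 := by
    apply Finset.exists_mem_notMem_of_card_lt_card
    rw [Nat.card_Icc]
    omega
  rw [Finset.mem_Icc] at hk0
  have hlvl : ∀ k, 1 ≤ k → k ≤ K → k ∉ S0 → Lvl D H c z g w R0 Sm (q ^ k) (t k) := by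
    intro k hk1 hk hkS
    obtain ⟨a1, a2, a3, a4, a5, a6⟩ := ht k hk
    refine ⟨a1, a2, a3, a4, a5, a6, ?_⟩
    intro j hj hjw hjc hcon2
    apply hkS
    rw [hS0, Finset.mem_filter, Finset.mem_Icc]
    exact ⟨⟨hk1, hk⟩, j, hj, hjw, hjc, hcon2.1, hcon2.2⟩
  have hA := hlvl k0 hk0.1 (by omega) hk0S
  set a := t k0 with ha
  obtain ⟨κ, hκ⟩ : ∃ κ, k0 = κ + 1 := ⟨k0 - 1, by omega⟩
  set Y := q ^ κ with hY
  have hY1 : 1 ≤ Y := Nat.one_le_pow _ _ hqpos
  have hX0 : q ^ k0 = q * Y := by rw [hκ, hY, pow_succ']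
  have hX03 : 3 ≤ q ^ k0 := by
    rw [hX0]
    calc 3 ≤ q := hq
      _ ≤ q * Y := Nat.le_mul_of_pos_right _ hY1
  have hX0S : q ^ k0 * (2 * Sm) ≤ R0 := by
    refine le_trans (Nat.mul_le_mul_right _ ?_) hR0
    exact Nat.pow_le_pow_right hqpos (by omega)
  -- positions used at the level of `a`
  set XI : Finset ℕ := D.filter (fun d => dia D H ≤ d ∧ wt D H c (cl D H d) ≠ 0 ∧
    w / q ^ P ≤ Y * (d - (dia D H + H)) ∧ Y * (d + dia D H + 1) ≤ w) with hXI
  set LB : Finset ℕ := XI.image (cl D H) with hLB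
  have hLBc : LB.card ≤ n := by
    rw [hn, hJ, hLB]
    apply labels_card hq2 h0 hBH hdil (k := κ) (by omega) (by omega)
    intro d hd
    rw [hXI, Finset.mem_filter] at hd
    exact ⟨hd.1, hd.2.1, hd.2.2.1, hd.2.2.2.1, hd.2.2.2.2⟩
  have hPpos : 0 < q ^ P := by positivity
  have hqP3 : 100 * q ^ 3 ≤ q ^ P := le_trans (Nat.le_mul_of_pos_right _ (Nat.succ_pos n)) hPJ
  have haY : w / q ^ P ≤ Y * (a - (dia D H + H)) := by
    apply div_le_of_mul hPpos
    have h1 := hA.low
    rw [hX0] at h1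
    set Z := Y * (a - (dia D H + H)) with hZ
    have h3 : z ≤ q * Z := by rw [hZ, ← mul_assoc]; exact h1
    have hZ1 : 1 ≤ Z := by
      by_contra hc
      have : Z = 0 := by omega
      rw [this] at h3; omega
    calc w ≤ q ^ 2 * (z + 1) := hwz.le
      _ ≤ q ^ 2 * (q * Z + q * Z) := by
          apply Nat.mul_le_mul_left
          have : 1 ≤ q * Z := Nat.mul_pos hqpos hZ1
          omega
      _ = 2 * q ^ 3 * Z := by ring
      _ ≤ q ^ P * Z := by
          apply Nat.mul_le_mul_right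
          omega
  have hadia : dia D H ≤ a := by
    have := hA.big (by
      refine le_trans (Nat.mul_le_mul_left _ (by omega)) hX0S) (by
      by_contra hc
      push Not at hc
      have h1 : q ^ 2 * (z + 1) ≤ q ^ 2 * (4 * R0) := Nat.mul_le_mul_left _ (by omega)
      have h3 : q ^ 2 * (4 * R0) ≤ 100 * q ^ 3 * R0 := by
        have : 100 * q ^ 3 * R0 = q ^ 2 * (100 * q * R0) := by ring
        rw [this]
        apply Nat.mul_le_mul_left
        apply Nat.mul_le_mul_right
        omega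
      omega)
    omega
  have haU : ∀ i : ℕ, i ≤ 2 * a + Sm → Y * (i + dia D H + 1) ≤ w := by
    intro i hi
    have h1 : q * (Y * (i + dia D H + 1)) ≤ q * w := by
      calc q * (Y * (i + dia D H + 1)) = q ^ k0 * (i + dia D H + 1) := by rw [hX0]; ring
        _ ≤ q ^ k0 * (2 * a + 2 * Sm) := Nat.mul_le_mul_left _ (by omega)
        _ = 2 * (q ^ k0 * a) + q ^ k0 * (2 * Sm) := by ring
        _ ≤ 2 * (w + R0) + R0 := by
            have := hA.upp
            omega
        _ ≤ 3 * w := by omega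
        _ ≤ q * w := Nat.mul_le_mul_right _ hq
    exact Nat.le_of_mul_le_mul_left h1 hqpos
  have haXI : a ∈ XI := by
    rw [hXI, Finset.mem_filter]
    exact ⟨hA.mem, hadia, hA.live, haY, haU a (by omega)⟩
  -- classification
  set S1 : Finset ℕ := (Finset.Icc (k0 + 3) K) \ S0 with hS1
  set PI : ℕ → Prop := fun k => ∃ i ∈ XI, (g : ℤ) ≤ 2 * ((q ^ k : ℕ) * ((cl D H i : ℤ) - cl D H a)) ∧
        ((q ^ k : ℕ) * ((cl D H i : ℤ) - cl D H a)) ≤ 2 * w with hPI
  set PIII : ℕ → Prop := fun k => ∃ i ∈ XI,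
    (g : ℤ) ≤ 2 * ((q ^ k : ℕ) * ((p : ℤ) * cl D H i - cl D H a)) ∧
        ((q ^ k : ℕ) * ((p : ℤ) * cl D H i - cl D H a)) ≤ 2 * w with hPIII
  set PII : ℕ → Prop := fun k => ∃ i ∈ XI, ∃ j ∈ XI,
    (w : ℤ) ≤ 2 * q ^ 2 * ((q ^ k : ℕ) * ((cl D H i : ℤ) + cl D H j - cl D H a)) ∧
        ((q ^ k : ℕ) * ((cl D H i : ℤ) + cl D H j - cl D H a)) ≤ 2 * w with hPII
  have hclass : ∀ k ∈ S1, PI k ∨ PIII k ∨ PII k := by
    intro k hk
    rw [hS1, Finset.mem_sdiff, Finset.mem_Icc] at hk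
    have hT := hlvl k (by omega) hk.1.2 hk.2
    obtain ⟨hta, hcl⟩ := classify h2 hp h0 hconv hE2 hL hSmB hdia1 hq hX03 (X := q ^ k) (by
        rw [← pow_add]; exact Nat.pow_le_pow_right hqpos (by omega)) (by
        refine le_trans (Nat.mul_le_mul_right _ ?_) hR0
        exact Nat.pow_le_pow_right hqpos (by omega)) hwz hRw hRg hR01 hwN hA hT
    rcases hcl with ⟨i, hi, hiw, hai, hia, h3, h4⟩ | ⟨i, hi, hiw, hai, hia, h3, h4⟩ |
      ⟨i, hi, j, hj, hiw, hjw, hji, hia, h5, hjd, h3, h4⟩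
    · left
      refine ⟨i, ?_, h3, h4⟩
      rw [hXI, Finset.mem_filter]
      refine ⟨hi, by omega, hiw, ?_, haU i hia⟩
      exact haY.trans (Nat.mul_le_mul_left _ (by omega))
    · right; left
      refine ⟨i, ?_, h3, h4⟩
      set r := dia D H + H with hr
      set Z := Y * (i - r) with hZ
      have f1 : a - r ≤ p * (i - r) + p * r := by
        have : p * i ≤ p * (i - r) + p * r := by
          rw [← mul_add]; exact Nat.mul_le_mul_left _ (by omega)
        omega
      have f2 : q ^ k0 * (a - r) ≤ q ^ k0 * (p * (i - r) + p * r) := Nat.mul_le_mul_left _ f1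
      have f3 : q ^ k0 * (p * (i - r) + p * r) = q * p * Z + q ^ k0 * (p * r) := by
        rw [hZ, hX0]; ring
      have f4 : q ^ k0 * (p * r) ≤ q ^ k0 * (2 * Sm) := Nat.mul_le_mul_left _ (by omega)
      have f5 : z ≤ q * p * Z + R0 := by
        have h1 := hA.low
        rw [← hr] at h1
        omega
      have hz3R : 3 * R0 < z := by
        by_contra hc
        push Not at hc
        have h1 : q ^ 2 * (z + 1) ≤ q ^ 2 * (4 * R0) := Nat.mul_le_mul_left _ (by omega)
        have h3 : q ^ 2 * (4 * R0) ≤ 100 * q ^ 3 * R0 := by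
          have : 100 * q ^ 3 * R0 = q ^ 2 * (100 * q * R0) := by ring
          rw [this]
          apply Nat.mul_le_mul_left
          apply Nat.mul_le_mul_right
          omega
        omega
      have f6 : z ≤ 2 * (q * p * Z) := by omega
      have hZ1 : 1 ≤ Z := by
        by_contra hc
        have : Z = 0 := by omega
        rw [this] at f6; omega
      have hir : r < i := by
        by_contra hc
        have : i - r = 0 := by omega
        rw [hZ, this, mul_zero] at hZ1
        omega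
      have hpq1 : p ≤ q := by rw [hpq]; exact Nat.le_self_pow (by norm_num) p
      rw [hXI, Finset.mem_filter]
      refine ⟨hi, by omega, hiw, ?_, haU i hia⟩
      apply div_le_of_mul hPpos
      calc w ≤ q ^ 2 * (z + 1) := hwz.le
        _ ≤ q ^ 2 * (2 * (q * p * Z) + q * p * Z) := by
            apply Nat.mul_le_mul_left
            have : 1 ≤ q * p * Z := Nat.mul_pos (Nat.mul_pos hqpos hp) hZ1
            omega
        _ = 3 * q ^ 3 * p * Z := by ring
        _ ≤ 3 * q ^ 3 * q * Z := by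
            apply Nat.mul_le_mul_right
            exact Nat.mul_le_mul_left _ hpq1
        _ = 3 * q ^ 4 * Z := by ring
        _ ≤ q ^ P * Z := Nat.mul_le_mul_right _ hPJ4
    · right; right
      have hjl : w / q ^ P ≤ Y * (j - (dia D H + H)) := by
        apply div_le_of_mul hPpos
        rw [hX0] at h5
        set Z := Y * (j - (dia D H + H)) with hZ
        have h6 : g ≤ 2 * (q * Z) := by
          have : q * Y * (j - (dia D H + H)) = q * Z := by rw [hZ]; ring
          rw [this] at h5; exact h5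
        calc w ≤ 6 * q * (n + 1) * g := hz3
          _ ≤ 6 * q * (n + 1) * (2 * (q * Z)) := Nat.mul_le_mul_left _ h6
          _ = (12 * q ^ 2 * (n + 1)) * Z := by ring
          _ ≤ (100 * q ^ 3 * (n + 1)) * Z := by
              apply Nat.mul_le_mul_right
              apply Nat.mul_le_mul_right
              apply Nat.mul_le_mul (by norm_num)
              exact Nat.pow_le_pow_right hqpos (by norm_num)
          _ ≤ q ^ P * Z := Nat.mul_le_mul_right _ hPJ
      refine ⟨i, ?_, j, ?_, h3, h4⟩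
      · rw [hXI, Finset.mem_filter]
        refine ⟨hi, by omega, hiw, ?_, haU i (by omega)⟩
        exact hjl.trans (Nat.mul_le_mul_left _ (by omega))
      · rw [hXI, Finset.mem_filter]
        exact ⟨hj, hjd, hjw, hjl, haU j (by omega)⟩
  have hS1sub : S1 ⊆ S1.filter PI ∪ (S1.filter PIII ∪ S1.filter PII) := by
    intro k hk
    rw [Finset.mem_union, Finset.mem_union, Finset.mem_filter, Finset.mem_filter,
      Finset.mem_filter]
    rcases hclass k hk with h | h | h
    · exact Or.inl ⟨hk, h⟩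
    · exact Or.inr (Or.inl ⟨hk, h⟩)
    · exact Or.inr (Or.inr ⟨hk, h⟩)
  -- the inequality used for lacunarity
  have hqPg : (12 : ℤ) * w ≤ q ^ P * g := by
    have h1 : 12 * w ≤ q ^ P * g := by
      calc 12 * w ≤ 12 * (6 * q * (n + 1) * g) := Nat.mul_le_mul_left _ hz3
        _ = (72 * q * (n + 1)) * g := by ring
        _ ≤ (100 * q ^ 3 * (n + 1)) * g := by
            apply Nat.mul_le_mul_right
            apply Nat.mul_le_mul_right
            apply Nat.mul_le_mul (by norm_num)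
            exact Nat.le_self_pow (by norm_num) q
        _ ≤ q ^ P * g := Nat.mul_le_mul_right _ hPJ
    exact_mod_cast h1
  have hqP2 : (12 : ℤ) * q ^ 2 ≤ q ^ P := by
    have h1 : 12 * q ^ 2 ≤ q ^ P := by
      refine le_trans ?_ hqP3
      apply Nat.mul_le_mul (by norm_num)
      exact Nat.pow_le_pow_right hqpos (by norm_num)
    exact_mod_cast h1
  have hqZ : (0 : ℤ) < q := by exact_mod_cast hqpos
  have hwpos : (0 : ℤ) < w := by
    have : 0 < w := by omega
    exact_mod_cast this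
  have hgpos : (0 : ℤ) < g := by
    have : 0 < g := by omega
    exact_mod_cast this
  -- comparison of two distances
  have hcomp : ∀ (k l : ℕ) (dk dl : ℤ), k + P ≤ l → 0 ≤ dl →
      (12 : ℤ) * w ≤ 2 * (q ^ P * (q ^ k * dk)) → (q : ℤ) ^ l * dl ≤ 2 * w → 3 * dl ≤ dk := by
    intro k l dk dl hkl hdl h1 h3
    have h4 : (q : ℤ) ^ (P + k) * dl ≤ q ^ l * dl := by
      apply mul_le_mul_of_nonneg_right _ hdl
      exact pow_le_pow_right₀ (by linarith [show (3 : ℤ) ≤ q by exact_mod_cast hq]) (by omega)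
    have h5 : (q : ℤ) ^ (P + k) * (3 * dl) ≤ q ^ (P + k) * dk := by
      have e1 : (q : ℤ) ^ (P + k) * (3 * dl) = 3 * (q ^ (P + k) * dl) := by ring
      have e2 : (q : ℤ) ^ (P + k) * dk = q ^ P * (q ^ k * dk) := by rw [pow_add]; ring
      rw [e1, e2]
      linarith
    exact le_of_mul_le_mul_left h5 (by positivity)
  have hc1 : (S1.filter PI).card ≤ P * n := by
    have hex : ∀ k ∈ S1.filter PI, ∃ i : ℕ, i ∈ XI ∧
        (g : ℤ) ≤ 2 * ((q ^ k : ℕ) * ((cl D H i : ℤ) - cl D H a)) ∧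
        ((q ^ k : ℕ) * ((cl D H i : ℤ) - cl D H a)) ≤ 2 * w := by
      intro k hk
      obtain ⟨i, h3, h4⟩ := (Finset.mem_filter.1 hk).2
      exact ⟨i, h3, h4⟩
    choose! φ hφ using hex
    have hpos : ∀ k ∈ S1.filter PI, 0 < (cl D H (φ k) : ℤ) - cl D H a := by
      intro k hk
      obtain ⟨_, h3, _⟩ := hφ k hk
      push_cast at h3
      have : (0 : ℤ) < (q : ℤ) ^ k * ((cl D H (φ k) : ℤ) - cl D H a) := by linarith
      exact (pos_iff_pos_of_mul_pos this).1 (by positivity)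
    have hl := lac_levels (LB.image (fun n : ℕ => (n : ℤ))) (S1.filter PI) P (by omega)
      (fun _ => (cl D H a : ℤ)) (fun k => (cl D H (φ k) : ℤ))
      (fun k hk => Finset.mem_image_of_mem _ (Finset.mem_image_of_mem _ haXI))
      (fun k hk => Finset.mem_image_of_mem _ (Finset.mem_image_of_mem _ (hφ k hk).1))
      (fun k hk => by have := hpos k hk; linarith) (by
        intro k hk l hl hkl
        right
        obtain ⟨_, a1, a2⟩ := hφ k hk
        obtain ⟨_, b1, b2⟩ := hφ l hl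
        push_cast at a1 b2
        refine hcomp k l _ _ hkl (hpos l hl).le ?_ b2
        have := mul_le_mul_of_nonneg_left a1 (show (0 : ℤ) ≤ q ^ P by positivity)
        linarith)
    refine hl.trans (Nat.mul_le_mul_left _ (Finset.card_image_le.trans hLBc))
  have hc1' : (S1.filter PIII).card ≤ P * (n + 1) := by
    have hex : ∀ k ∈ S1.filter PIII, ∃ i : ℕ, i ∈ XI ∧
        (g : ℤ) ≤ 2 * ((q ^ k : ℕ) * ((p : ℤ) * cl D H i - cl D H a)) ∧
        ((q ^ k : ℕ) * ((p : ℤ) * cl D H i - cl D H a)) ≤ 2 * w := by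
      intro k hk
      obtain ⟨i, h3, h4⟩ := (Finset.mem_filter.1 hk).2
      exact ⟨i, h3, h4⟩
    choose! φ hφ using hex
    have hpos : ∀ k ∈ S1.filter PIII, 0 < (p : ℤ) * cl D H (φ k) - cl D H a := by
      intro k hk
      obtain ⟨_, h3, _⟩ := hφ k hk
      push_cast at h3
      have : (0 : ℤ) < (q : ℤ) ^ k * ((p : ℤ) * cl D H (φ k) - cl D H a) := by linarith
      exact (pos_iff_pos_of_mul_pos this).1 (by positivity)
    have hl := lac_levels (insert (cl D H a : ℤ) (LB.image (fun n : ℕ => (p : ℤ) * (n : ℤ))))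
      (S1.filter PIII) P (by omega)
      (fun _ => (cl D H a : ℤ)) (fun k => (p : ℤ) * cl D H (φ k))
      (fun k hk => Finset.mem_insert_self _ _)
      (fun k hk => Finset.mem_insert_of_mem (Finset.mem_image.2
        ⟨cl D H (φ k), Finset.mem_image_of_mem _ (hφ k hk).1, rfl⟩))
      (fun k hk => by have := hpos k hk; linarith) (by
        intro k hk l hl hkl
        right
        obtain ⟨_, a1, a2⟩ := hφ k hk
        obtain ⟨_, b1, b2⟩ := hφ l hl
        push_cast at a1 b2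
        refine hcomp k l _ _ hkl (hpos l hl).le ?_ b2
        have := mul_le_mul_of_nonneg_left a1 (show (0 : ℤ) ≤ q ^ P by positivity)
        linarith)
    refine hl.trans (Nat.mul_le_mul_left _ ?_)
    refine (Finset.card_insert_le _ _).trans ?_
    have h1 := Finset.card_image_le (s := LB) (f := fun n : ℕ => (p : ℤ) * (n : ℤ))
    omega
  have hc2 : (S1.filter PII).card ≤ P * (2 * n) := by
    have hex : ∀ k ∈ S1.filter PII, ∃ i j : ℕ, i ∈ XI ∧ j ∈ XI ∧
        (w : ℤ) ≤ 2 * q ^ 2 * ((q ^ k : ℕ) * ((cl D H i : ℤ) + cl D H j - cl D H a)) ∧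
        ((q ^ k : ℕ) * ((cl D H i : ℤ) + cl D H j - cl D H a)) ≤ 2 * w := by
      intro k hk
      obtain ⟨i, h3, j, h4, h5⟩ := (Finset.mem_filter.1 hk).2
      exact ⟨i, j, h3, h4, h5⟩
    choose! φ ψ hφ using hex
    have hpos : ∀ k ∈ S1.filter PII, 0 < (cl D H (φ k) : ℤ) + cl D H (ψ k) - cl D H a := by
      intro k hk
      obtain ⟨_, _, h3, _⟩ := hφ k hk
      push_cast at h3
      have h4 : (0 : ℤ) < 2 * q ^ 2 * ((q : ℤ) ^ k * ((cl D H (φ k) : ℤ) + cl D H (ψ k) - cl D H a)) := by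
        linarith
      have h5 : (0 : ℤ) < (q : ℤ) ^ k * ((cl D H (φ k) : ℤ) + cl D H (ψ k) - cl D H a) :=
        (pos_iff_pos_of_mul_pos h4).1 (by positivity)
      exact (pos_iff_pos_of_mul_pos h5).1 (by positivity)
    have hl := lac_levels (LB.image (fun n : ℕ => (n : ℤ)) ∪
        LB.image (fun n : ℕ => (cl D H a : ℤ) - (n : ℤ))) (S1.filter PII) P (by omega)
      (fun k => (cl D H a : ℤ) - (cl D H (ψ k) : ℤ)) (fun k => (cl D H (φ k) : ℤ))
      (fun k hk => Finset.mem_union_right _ (Finset.mem_image.2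
        ⟨cl D H (ψ k), Finset.mem_image_of_mem _ (hφ k hk).2.1, rfl⟩))
      (fun k hk => Finset.mem_union_left _ (Finset.mem_image.2
        ⟨cl D H (φ k), Finset.mem_image_of_mem _ (hφ k hk).1, rfl⟩))
      (fun k hk => by have := hpos k hk; linarith) (by
        intro k hk l hl hkl
        right
        obtain ⟨_, _, a1, a2⟩ := hφ k hk
        obtain ⟨_, _, b1, b2⟩ := hφ l hl
        push_cast at a1 b2
        have e1 : ∀ k : ℕ, (cl D H (φ k) : ℤ) - ((cl D H a : ℤ) - cl D H (ψ k)) =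
            (cl D H (φ k) : ℤ) + cl D H (ψ k) - cl D H a := by intro k; ring
        rw [e1, e1]
        refine hcomp k l _ _ hkl (hpos l hl).le ?_ b2
        have hp := (hpos k hk).le
        set dk := (cl D H (φ k) : ℤ) + cl D H (ψ k) - cl D H a with hdk
        have h1 : (0 : ℤ) ≤ q ^ k * dk := by positivity
        have h3 : (12 : ℤ) * q ^ 2 * (q ^ k * dk) ≤ q ^ P * (q ^ k * dk) :=
          mul_le_mul_of_nonneg_right hqP2 h1
        linarith)
    refine hl.trans (Nat.mul_le_mul_left _ ?_)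
    refine (Finset.card_union_le _ _).trans ?_
    have h1 := Finset.card_image_le (s := LB) (f := fun n : ℕ => (n : ℤ))
    have h3 := Finset.card_image_le (s := LB) (f := fun n : ℕ => (cl D H a : ℤ) - (n : ℤ))
    omega
  have hc3 : K + 1 - (k0 + 3) ≤ S1.card + S0.card := by
    have h1 : (Finset.Icc (k0 + 3) K).card ≤ S1.card + S0.card := by
      rw [hS1]
      have := Finset.card_le_card (s := Finset.Icc (k0 + 3) K)
        (t := (Finset.Icc (k0 + 3) K \ S0) ∪ S0) (by
          intro x hx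
          rw [Finset.mem_union, Finset.mem_sdiff]
          by_cases h : x ∈ S0
          · exact Or.inr h
          · exact Or.inl ⟨hx, h⟩)
      exact this.trans (Finset.card_union_le _ _)
    rwa [Nat.card_Icc] at h1
  have hc4 := (Finset.card_le_card hS1sub).trans (Finset.card_union_le _ _)
  have hc4' := Finset.card_union_le (S1.filter PIII) (S1.filter PII)
  have hc5 : P * (2 * n) = 2 * (P * n) := by ring
  have hc6 : P * (n + 1) = P * n + P := by ring
  omega

end Pool.Agent.H323R2.C3
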