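import Pool.Agent.H323R2.Gen1
import Pool.Agent.H393R2.DC.Dil

/-! The Frobenius relations for cubic polynomials without quadratic term. -/

set_option autoImplicit false

namespace Pool.Agent.H323R2.C3

open Polynomial Finset
open Pool.Agent.H323R2.Gen (rho rho_dvd rho_degree vv ve MM ve_dil badG)
open Pool.Agent.H393R2.DC (S Pol dlt V sg S_sq S_Pol)

/-- purely algebraic relations: coefficients of the Frobenius in a cubic field -/
theorem coef_rel {k K : Type*} [Field k] [Field K] (φ : k →+* K) (θ θ1 θ2 : K)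
    (hind : ∀ c0 c1 c2 : k, φ c0 + φ c1 * θ + φ c2 * θ ^ 2 = 0 → c0 = 0 ∧ c1 = 0 ∧ c2 = 0)
    (a r : k) (hθ : θ ^ 3 + φ a * θ + φ r = 0) (hθ1 : θ1 ^ 3 + φ a * θ1 + φ r = 0)
    (hθ2 : θ2 ^ 3 + φ a * θ2 + φ r = 0)
    (hne1 : θ1 ≠ θ) (hne2 : θ2 ≠ θ1) (hne3 : θ2 ≠ θ) (A B C : k)
    (h1 : θ1 = φ C + φ B * θ + φ A * θ ^ 2) (h2 : θ2 = φ C + φ B * θ1 + φ A * θ1 ^ 2)
    (ha : a ≠ 0) (hk2 : (2 : k) ≠ 0) (hk3 : (3 : k) ≠ 0) :
    θ + θ1 + θ2 = 0 ∧ A ≠ 0 ∧ C ≠ 0 := by
  have q1 : θ1 ^ 2 + θ1 * θ + θ ^ 2 + φ a = 0 := by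
    have : (θ1 - θ) * (θ1 ^ 2 + θ1 * θ + θ ^ 2 + φ a) = 0 := by linear_combination hθ1 - hθ
    rcases mul_eq_zero.1 this with h | h
    · exact absurd (sub_eq_zero.1 h) hne1
    · exact h
  have q2 : θ2 ^ 2 + θ2 * θ1 + θ1 ^ 2 + φ a = 0 := by
    have : (θ2 - θ1) * (θ2 ^ 2 + θ2 * θ1 + θ1 ^ 2 + φ a) = 0 := by linear_combination hθ2 - hθ1
    rcases mul_eq_zero.1 this with h | h
    · exact absurd (sub_eq_zero.1 h) hne2
    · exact h
  have tr : θ + θ1 + θ2 = 0 := by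
    have : (θ2 - θ) * (θ + θ1 + θ2) = 0 := by linear_combination q2 - q1
    rcases mul_eq_zero.1 this with h | h
    · exact absurd (sub_eq_zero.1 h) hne3
    · exact h
  refine ⟨tr, ?_⟩
  -- θ + (1 + B) θ1 + C + A θ1 ^ 2 = 0
  have e1 : θ + (1 + φ B) * θ1 + φ C + φ A * θ1 ^ 2 = 0 := by
    linear_combination tr - h2
  have c3 : θ ^ 3 = - φ a * θ - φ r := by linear_combination hθ
  have e2 : φ ((2 + B) * C - A * a + A ^ 2 * r) + φ (1 + B + B ^ 2 - A * C + A ^ 2 * a) * θ +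
      φ 0 * θ ^ 2 = 0 := by
    simp only [map_add, map_sub, map_mul, map_pow, map_one, map_zero, map_ofNat]
    have e3 : θ1 ^ 2 = - φ a - θ ^ 2 - θ * θ1 := by linear_combination q1
    rw [e3, h1] at e1
    linear_combination e1 + φ A ^ 2 * c3
  obtain ⟨f1, f2, -⟩ := hind _ _ _ e2
  have e4 : φ (C ^ 2 - 2 * A * B * r + a - A * r) +
      φ (2 * B * C - 2 * A * B * a - A ^ 2 * r + C - A * a) * θ +
      φ (B ^ 2 + 2 * A * C - A ^ 2 * a + 1 + B) * θ ^ 2 = 0 := by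
    simp only [map_add, map_sub, map_mul, map_pow, map_one, map_ofNat]
    have e5 := q1
    rw [h1] at e5
    have c4 : θ ^ 4 = - φ a * θ ^ 2 - φ r * θ := by linear_combination θ * c3
    linear_combination e5 - (2 * φ A * φ B + φ A) * c3 - φ A ^ 2 * c4
  obtain ⟨g1, g2, g3⟩ := hind _ _ _ e4
  have hA : A ≠ 0 := by
    intro hA
    subst hA
    have u1 : (2 + B) * C = 0 := by linear_combination f1
    have u2 : 1 + B + B ^ 2 = 0 := by linear_combination f2
    have hB : 2 + B ≠ 0 := by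
      intro hB
      have : (3 : k) = 0 := by
        have hB' : B = -2 := by linear_combination hB
        rw [hB'] at u2
        linear_combination u2
      exact hk3 this
    have hC : C = 0 := by
      rcases mul_eq_zero.1 u1 with h | h
      · exact absurd h hB
      · exact h
    subst hC
    apply ha
    linear_combination g1
  refine ⟨hA, fun hC => ?_⟩
  subst hC
  have u : 2 * a * A ^ 2 = 0 := by linear_combination f2 - g3
  rcases mul_eq_zero.1 u with h | h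
  · rcases mul_eq_zero.1 h with h | h
    · exact hk2 h
    · exact ha h
  · exact hA (pow_eq_zero_iff (by norm_num) |>.1 h)

end Pool.Agent.H323R2.C3
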