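import Pool.Agent.H323R2.C3.NT

/-! The Frobenius relations for cubic polynomials without quadratic term, II. -/

set_option autoImplicit false

namespace Pool.Agent.H323R2.C3

open Polynomial Finset
open Pool.Agent.H323R2.Gen (rho rho_dvd rho_degree vv ve MM ve_dil badG)
open Pool.Agent.H393R2.DC (S Pol dlt V sg S_sq S_Pol)

section

variable {q : ℕ} [Fact q.Prime]

/-- coefficient of the reduction of `X ^ m` -/
noncomputable def rc (f : ℤ[X]) (q m j : ℕ) : ZMod q := (((rho f 3 m).coeff j : ℤ) : ZMod q)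

theorem rho_eval {K : Type*} [CommRing K] (f : ℤ[X]) (hf : f.Monic) (hd : f.natDegree = 3)
    (φ : ZMod q →+* K) (θ : K) (hθ : (f.map (Int.castRingHom (ZMod q))).eval₂ φ θ = 0) (m : ℕ) :
    θ ^ m = φ (rc f q m 0) + φ (rc f q m 1) * θ + φ (rc f q m 2) * θ ^ 2 := by
  obtain ⟨g, hg⟩ := rho_dvd f 3 m
  have h1 : (X ^ m : ℤ[X]) = rho f 3 m + f * g := by rw [← hg]; ring
  have h2 := congrArg (fun P : ℤ[X] => (P.map (Int.castRingHom (ZMod q))).eval₂ φ θ) h1
  simp only [Polynomial.map_add, Polynomial.map_mul, Polynomial.map_pow, Polynomial.map_X,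
    Polynomial.eval₂_add, Polynomial.eval₂_mul, hθ, zero_mul, add_zero, Polynomial.eval₂_X_pow] at h2
  rw [h2]
  have hdeg : ((rho f 3 m).map (Int.castRingHom (ZMod q))).natDegree < 3 :=
    lt_of_le_of_lt Polynomial.natDegree_map_le (rho_degree f hf 3 hd (by norm_num) m)
  rw [Polynomial.eval₂_eq_sum_range' φ hdeg]
  rw [Finset.sum_range_succ, Finset.sum_range_succ, Finset.sum_range_succ, Finset.sum_range_zero]
  simp only [Polynomial.coeff_map, rc]
  simp

theorem frob_rel (f : ℤ[X]) (hf : f.Monic) (hd : f.natDegree = 3) (a r : ℤ)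
    (hfe : f = X ^ 3 + C a * X + C r)
    (hroot : ∀ x : ZMod q, (f.map (Int.castRingHom (ZMod q))).eval x ≠ 0)
    (ha : (a : ZMod q) ≠ 0) (h2 : (2 : ZMod q) ≠ 0) (h3 : (3 : ZMod q) ≠ 0) :
    rc f q q 2 ≠ 0 ∧ rc f q q 0 ≠ 0 ∧
    (rc f q q 0 * rc f q (0 * q) 0 + rc f q q 1 * rc f q (1 * q) 0 + rc f q q 2 * rc f q (2 * q) 0 +
      rc f q q 0 = 0) ∧
    (rc f q q 0 * rc f q (0 * q) 1 + rc f q q 1 * rc f q (1 * q) 1 + rc f q q 2 * rc f q (2 * q) 1 +
      rc f q q 1 + 1 = 0) ∧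
    (rc f q q 0 * rc f q (0 * q) 2 + rc f q q 1 * rc f q (1 * q) 2 + rc f q q 2 * rc f q (2 * q) 2 +
      rc f q q 2 = 0) := by
  set F : (ZMod q)[X] := f.map (Int.castRingHom (ZMod q)) with hF
  have hFm : F.Monic := hf.map _
  have hFd : F.natDegree = 3 := by rw [hF, hf.natDegree_map, hd]
  have hFF : F = X ^ 3 + C (a : ZMod q) * X + C (r : ZMod q) := by
    rw [hF, hfe]; simp
  have hirr : Irreducible F := by
    apply Polynomial.irreducible_of_degree_le_three_of_not_isRoot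
    · rw [hFd]; simp
    · intro x hx
      exact hroot x hx
  have : Fact (Irreducible F) := ⟨hirr⟩
  let K : Type := AdjoinRoot F
  let φ : ZMod q →+* K := AdjoinRoot.of F
  have hφinj : Function.Injective φ := φ.injective
  let θ : K := AdjoinRoot.root F
  have hθ0 : F.eval₂ φ θ = 0 := AdjoinRoot.eval₂_root F
  have hmk : ∀ g : (ZMod q)[X], g.eval₂ φ θ = AdjoinRoot.mk F g := by
    intro g
    have := AdjoinRoot.aeval_eq (f := F) g
    rw [aeval_def] at this
    exact this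
  have hind : ∀ c0 c1 c2 : ZMod q, φ c0 + φ c1 * θ + φ c2 * θ ^ 2 = 0 →
      c0 = 0 ∧ c1 = 0 ∧ c2 = 0 := by
    intro c0 c1 c2 h
    set g : (ZMod q)[X] := C c0 + C c1 * X + C c2 * X ^ 2 with hg
    have h1 : g.eval₂ φ θ = 0 := by
      rw [hg]; simp only [Polynomial.eval₂_add, Polynomial.eval₂_mul, Polynomial.eval₂_C,
        Polynomial.eval₂_X, Polynomial.eval₂_pow]
      exact h
    rw [hmk, AdjoinRoot.mk_eq_zero] at h1
    have h2 : g = 0 := by
      apply Polynomial.eq_zero_of_dvd_of_natDegree_lt h1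
      rw [hFd, hg]
      have : (C c0 + C c1 * X + C c2 * X ^ 2 : (ZMod q)[X]).natDegree ≤ 2 := by
        compute_degree
      omega
    have g0 : g.coeff 0 = c0 := by rw [hg]; simp
    have g1 : g.coeff 1 = c1 := by
      rw [hg]; simp [Polynomial.coeff_X, Polynomial.coeff_X_pow, Polynomial.coeff_C]
    have g2 : g.coeff 2 = c2 := by
      rw [hg]; simp [Polynomial.coeff_X, Polynomial.coeff_X_pow, Polynomial.coeff_C]
    rw [h2] at g0 g1 g2
    simp at g0 g1 g2
    exact ⟨g0.symm, g1.symm, g2.symm⟩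
  have hchar : CharP K q := charP_of_injective_ringHom hφinj q
  have hexp : ExpChar K q := by infer_instance
  -- fixed points of the Frobenius
  have hfix : ∀ x : K, x ^ q = x → ∃ c : ZMod q, x = φ c := by
    intro x hx
    have h := (Subfield.mem_bot_iff_pow_eq_self (F := K) (p := q) (x := x)).2 hx
    have h4 : (⊥ : Subfield K) ≤ φ.fieldRange := bot_le
    obtain ⟨c, hc⟩ := h4 h
    exact ⟨c, hc.symm⟩
  have hφq : ∀ c : ZMod q, (φ c) ^ q = φ c := by
    intro c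
    rw [← map_pow, ZMod.pow_card]
  have hFe : ∀ x : K, F.eval₂ φ x = x ^ 3 + φ (a : ZMod q) * x + φ (r : ZMod q) := by
    intro x
    have h := congrArg (fun G : (ZMod q)[X] => G.eval₂ φ x) hFF
    simp only [Polynomial.eval₂_add, Polynomial.eval₂_mul, Polynomial.eval₂_C,
      Polynomial.eval₂_X, Polynomial.eval₂_pow] at h
    exact h
  have e0 : θ ^ 3 + φ (a : ZMod q) * θ + φ (r : ZMod q) = 0 := by rw [← hFe]; exact hθ0
  have hfrob : ∀ x y : K, (x + y) ^ q = x ^ q + y ^ q := fun x y => by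
    have h := map_add (frobenius K q) x y
    simpa only [frobenius_def] using h
  have hroot1 : ∀ x : K, x ^ 3 + φ (a : ZMod q) * x + φ (r : ZMod q) = 0 →
      (x ^ q) ^ 3 + φ (a : ZMod q) * x ^ q + φ (r : ZMod q) = 0 := by
    intro x hx
    have h := congrArg (fun z : K => z ^ q) hx
    rw [hfrob, hfrob, mul_pow, hφq, hφq, zero_pow (Fact.out : q.Prime).ne_zero, ← pow_mul,
      mul_comm 3 q, pow_mul] at h
    exact h
  set θ1 : K := θ ^ q with hθ1
  set θ2 : K := θ1 ^ q with hθ2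
  have e1 := hroot1 θ e0
  have e2 := hroot1 θ1 e1
  have hne1 : θ1 ≠ θ := by
    intro h
    obtain ⟨c, hc⟩ := hfix θ h
    have h5 : φ (-c) + φ 1 * θ + φ 0 * θ ^ 2 = 0 := by
      simp only [map_neg, map_one, map_zero]
      linear_combination hc
    exact one_ne_zero (hind _ _ _ h5).2.1
  have hinj : ∀ x y : K, x ^ q = y ^ q → x = y := fun x y h => frobenius_inj K q h
  have hne2 : θ2 ≠ θ1 := fun h => hne1 (hinj _ _ h)
  have hne3 : θ2 ≠ θ := by
    intro h
    have hs : (θ + θ1) ^ q = θ + θ1 := by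
      rw [hfrob, ← hθ1, ← hθ2, h, add_comm]
    have hp : (θ * θ1) ^ q = θ * θ1 := by
      rw [mul_pow, ← hθ1, ← hθ2, h, mul_comm]
    obtain ⟨c, hc⟩ := hfix _ hs
    obtain ⟨d, hd'⟩ := hfix _ hp
    have h5 : φ d + φ (-c) * θ + φ 1 * θ ^ 2 = 0 := by
      simp only [map_neg, map_one]
      rw [← hc, ← hd']
      ring
    exact one_ne_zero (hind _ _ _ h5).2.2
  have r1 := rho_eval f hf hd φ θ hθ0 q
  have hθ1e : θ1 = φ (rc f q q 0) + φ (rc f q q 1) * θ + φ (rc f q q 2) * θ ^ 2 := r1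
  have hθ2e : θ2 = φ (rc f q q 0) + φ (rc f q q 1) * θ1 + φ (rc f q q 2) * θ1 ^ 2 := by
    have h := congrArg (fun z : K => z ^ q) hθ1e
    rw [hfrob, hfrob, mul_pow, mul_pow, hφq, hφq, hφq, ← pow_mul θ 2 q, mul_comm 2 q, pow_mul] at h
    exact h
  obtain ⟨t1, t2, t3⟩ := coef_rel φ θ θ1 θ2 hind (a : ZMod q) (r : ZMod q) e0 e1 e2 hne1 hne2 hne3
    _ _ _ hθ1e hθ2e ha h2 h3
  refine ⟨t2, t3, ?_⟩
  have r0 := rho_eval f hf hd φ θ hθ0 (0 * q)
  have r1' := rho_eval f hf hd φ θ hθ0 (1 * q)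
  have r2' := rho_eval f hf hd φ θ hθ0 (2 * q)
  have k0 : θ ^ (0 * q) = 1 := by simp
  have k1 : θ ^ (1 * q) = θ1 := by rw [one_mul]
  have k2 : θ ^ (2 * q) = θ1 ^ 2 := by rw [mul_comm, pow_mul]
  rw [k0] at r0
  rw [k1] at r1'
  rw [k2] at r2'
  have key : φ (rc f q q 0 * rc f q (0 * q) 0 + rc f q q 1 * rc f q (1 * q) 0 +
      rc f q q 2 * rc f q (2 * q) 0 + rc f q q 0) +
    φ (rc f q q 0 * rc f q (0 * q) 1 + rc f q q 1 * rc f q (1 * q) 1 +
      rc f q q 2 * rc f q (2 * q) 1 + rc f q q 1 + 1) * θ +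
    φ (rc f q q 0 * rc f q (0 * q) 2 + rc f q q 1 * rc f q (1 * q) 2 +
      rc f q q 2 * rc f q (2 * q) 2 + rc f q q 2) * θ ^ 2 = 0 := by
    simp only [map_add, map_mul, map_one]
    linear_combination t1 - hθ2e - hθ1e - φ (rc f q q 0) * r0 - φ (rc f q q 1) * r1' -
      φ (rc f q q 2) * r2'
  exact hind _ _ _ key

end

end Pool.Agent.H323R2.C3
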