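import Pool.Agent.H323R2.C3.Asm
import Pool.Agent.H323R2.Quad3

/-!
Digit relations of real cubic irrationals with exponent 3.
-/

set_option autoImplicit false

namespace Pool.Agent.H323R2.C3

open Finset Filter Topology
open Pool.Agent.H393R2.DC (Dn dlt floor_step)
open Pool.Agent.H323R2.Quad3 (absorb3 digit)

/-- a monic integer polynomial `X^3 + aX + r` without rational root is irreducible -/
theorem irr_cubic (a r : ℤ) (h : ∀ z : ℤ, z ^ 3 + a * z + r ≠ 0) :
    Irreducible (Polynomial.X ^ 3 + Polynomial.C a * Polynomial.X + Polynomial.C r :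
      Polynomial ℤ) := by
  set f : Polynomial ℤ :=
    Polynomial.X ^ 3 + Polynomial.C a * Polynomial.X + Polynomial.C r with hf
  have hd : f.natDegree = 3 := by rw [hf]; compute_degree!
  have hm : f.Monic := by rw [hf]; monicity!
  rw [hm.irreducible_iff_roots_eq_zero_of_degree_le_three (by omega) (by omega)]
  apply Multiset.eq_zero_of_forall_notMem
  intro z hz
  rw [Polynomial.mem_roots hm.ne_zero, Polynomial.IsRoot] at hz
  apply h z
  rw [hf] at hz
  simpa using hz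

theorem main_cub (x : ℝ) (A B C E : ℤ) (hA : A ≠ 0)
    (hx : (A : ℝ) * x ^ 3 + B * x ^ 2 + C * x + E = 0)
    (hirr : ∀ z : ℚ, (A : ℚ) * z ^ 3 + B * z ^ 2 + C * z + E ≠ 0)
    (hne : B ^ 2 ≠ 3 * A * C) (b : ℕ) (hb : 2 ≤ b)
    (T : ℤ) (hT : T ≠ 0) (C0 : ℝ) (Y : ℕ → ℤ)
    (hY : ∀ K, |(Y K : ℝ) - (b : ℝ) ^ K * (T * x)| ≤ C0) :
    ∃ c : ℝ, 0 < c ∧ ∃ N0 : ℕ, ∀ N : ℕ, N0 ≤ N →
      c * (Real.log N) ^ 3 / (Real.log (Real.log N)) ^ 5 ≤ ((Dn b Y N).card : ℝ) := by
  set a : ℤ := T ^ 2 * (9 * A * C - 3 * B ^ 2) with ha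
  set r : ℤ := T ^ 3 * (2 * B ^ 3 - 9 * A * B * C + 27 * A ^ 2 * E) with hr
  set f : Polynomial ℤ :=
    Polynomial.X ^ 3 + Polynomial.C a * Polynomial.X + Polynomial.C r with hf
  have hd : f.natDegree = 3 := by rw [hf]; compute_degree!
  have hm : f.Monic := by rw [hf]; monicity!
  have ha0 : a ≠ 0 := by
    rw [ha]
    refine mul_ne_zero (pow_ne_zero _ hT) ?_
    intro h
    apply hne
    have h1 : 3 * (B ^ 2 - 3 * A * C) = 0 := by linarith
    have h2 : B ^ 2 - 3 * A * C = 0 := by omega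
    linarith
  have hAQ : (A : ℚ) ≠ 0 := by exact_mod_cast hA
  have hTQ : (T : ℚ) ≠ 0 := by exact_mod_cast hT
  have hfirr : Irreducible f := by
    apply irr_cubic
    intro z hz
    apply hirr (((z : ℚ) / T - B) / (3 * A))
    have hz' : (z : ℚ) ^ 3 + a * z + r = 0 := by exact_mod_cast hz
    rw [ha, hr] at hz'
    push_cast at hz'
    have key : (A : ℚ) * (((z : ℚ) / T - B) / (3 * A)) ^ 3 + B * (((z : ℚ) / T - B) / (3 * A)) ^ 2 +
        C * (((z : ℚ) / T - B) / (3 * A)) + E =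
        ((z : ℚ) ^ 3 + (T : ℚ) ^ 2 * (9 * A * C - 3 * B ^ 2) * z +
          (T : ℚ) ^ 3 * (2 * B ^ 3 - 9 * A * B * C + 27 * A ^ 2 * E)) / (27 * A ^ 2 * T ^ 3) := by
      field_simp
      ring
    rw [key, hz', zero_div]
  set γ : ℝ := (T : ℝ) * (3 * A * x + B) with hγ
  have ht : (f.map (Int.castRingHom ℝ)).eval γ = 0 := by
    have e : (f.map (Int.castRingHom ℝ)).eval γ = γ ^ 3 + (a : ℝ) * γ + r := by
      rw [hf]; simp
    rw [e, ha, hr, hγ]
    push_cast
    linear_combination (27 * (A : ℝ) ^ 2 * (T : ℝ) ^ 3) * hx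
  set U : ℕ → ℤ := fun n => 3 * A * Y n + B * T * (b : ℤ) ^ n with hU
  have hUa : ∀ n, |(U n : ℝ) - (b : ℝ) ^ n * γ| ≤ 3 * |(A : ℝ)| * C0 := by
    intro n
    have e : (U n : ℝ) - (b : ℝ) ^ n * γ = 3 * A * ((Y n : ℝ) - (b : ℝ) ^ n * (T * x)) := by
      simp only [hU, hγ]; push_cast; ring
    rw [e, abs_mul, abs_mul, abs_of_pos (show (0 : ℝ) < 3 by norm_num)]
    exact mul_le_mul_of_nonneg_left (hY n) (by positivity)
  obtain ⟨c, hc, N0, hN0⟩ := main_cubic3 f hm hd hfirr a r hf ha0 b hb γ (3 * |(A : ℝ)| * C0) ht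
    U hUa
  obtain ⟨c', hc', N1, hN1⟩ := absorb3 c hc
  refine ⟨c', hc', max N0 N1, fun N hN => ?_⟩
  refine hN1 N (le_trans (le_max_right _ _) hN) _ ((hN0 N (le_trans (le_max_left _ _) hN)).trans ?_)
  have hsub : Dn b U N ⊆ insert 0 (Dn b Y N) := by
    intro k hk
    unfold Dn at hk
    rw [Finset.mem_filter] at hk
    rw [Finset.mem_insert]
    cases k with
    | zero => exact Or.inl rfl
    | succ k =>
      right
      unfold Dn
      rw [Finset.mem_filter]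
      refine ⟨hk.1, fun h => hk.2 ?_⟩
      simp only [dlt, hU] at h ⊢
      have h1 : Y (k + 1) = b * Y k := by linarith
      rw [h1, pow_succ]
      ring
  have h1 := (Finset.card_le_card hsub).trans (Finset.card_insert_le _ _)
  exact_mod_cast h1

/-- linear relations between consecutive digits -/
theorem digit_relations (x : ℝ) (A B C E : ℤ) (hA : A ≠ 0)
    (hx : (A : ℝ) * x ^ 3 + B * x ^ 2 + C * x + E = 0)
    (hirr : ∀ z : ℚ, (A : ℚ) * z ^ 3 + B * z ^ 2 + C * z + E ≠ 0)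
    (hne : B ^ 2 ≠ 3 * A * C) (b : ℕ) (hb : 2 ≤ b)
    (m : ℕ) (q : ℕ → ℤ) (e : ℤ) (hqb : ∑ j ∈ range (m + 1), q j * (b : ℤ) ^ j ≠ 0) :
    ∃ c : ℝ, 0 < c ∧ ∃ N0 : ℕ, ∀ N : ℕ, N0 ≤ N →
      c * (Real.log N) ^ 3 / (Real.log (Real.log N)) ^ 5 ≤
        (((Icc 1 N).filter (fun k : ℕ =>
          ∑ j ∈ range (m + 1), q j * digit b x (k + j) ≠ e)).card : ℝ) := by
  set s : ℤ := ∑ j ∈ range (m + 1), q j * (b : ℤ) ^ j with hs
  have hb0 : (0 : ℝ) < b := by positivity
  have hb2 : (2 : ℝ) ≤ b := by exact_mod_cast hb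
  have hb1 : (0 : ℝ) ≤ (b : ℝ) - 1 := by linarith
  have hbZ : ((b : ℤ) - 1) ≠ 0 := by
    have : (2 : ℤ) ≤ b := by exact_mod_cast hb
    omega
  set W : ℕ → ℤ := fun n => ⌊(b : ℝ) ^ n * x⌋ with hW
  have hWs : ∀ n, W (n + 1) = b * W n + digit b x (n + 1) := fun n => floor_step b hb x n
  set Y : ℕ → ℤ := fun n => ((b : ℤ) - 1) * ∑ j ∈ range (m + 1), q j * W (n + j) + e with hY
  have hYs : ∀ n, Y (n + 1) - b * Y n =
      ((b : ℤ) - 1) * (∑ j ∈ range (m + 1), q j * digit b x (n + 1 + j) - e) := by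
    intro n
    have h1 : ∑ j ∈ range (m + 1), q j * W (n + 1 + j) =
        b * ∑ j ∈ range (m + 1), q j * W (n + j) +
          ∑ j ∈ range (m + 1), q j * digit b x (n + 1 + j) := by
      rw [Finset.mul_sum, ← Finset.sum_add_distrib]
      apply Finset.sum_congr rfl
      intro j _
      have e1 : n + 1 + j = n + j + 1 := by ring
      rw [e1, hWs (n + j)]
      ring
    simp only [hY]
    rw [h1]
    ring
  set M : ℝ := ((b : ℝ) - 1) * ∑ j ∈ range (m + 1), |(q j : ℝ)| + |(e : ℝ)| with hM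
  have hYa : ∀ n, |(Y n : ℝ) - (b : ℝ) ^ n * (((((b : ℤ) - 1) * s : ℤ) : ℝ) * x)| ≤ M := by
    intro n
    have e1 : (Y n : ℝ) - (b : ℝ) ^ n * (((((b : ℤ) - 1) * s : ℤ) : ℝ) * x) =
        ((b : ℝ) - 1) * ∑ j ∈ range (m + 1), (q j : ℝ) * ((W (n + j) : ℝ) - (b : ℝ) ^ (n + j) * x)
          + e := by
      have e2 : ∑ j ∈ range (m + 1), (q j : ℝ) * ((W (n + j) : ℝ) - (b : ℝ) ^ (n + j) * x) =
          ∑ j ∈ range (m + 1), (q j : ℝ) * (W (n + j) : ℝ) - (b : ℝ) ^ n * x * s := by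
        have e3 : (s : ℝ) = ∑ j ∈ range (m + 1), (q j : ℝ) * (b : ℝ) ^ j := by
          rw [hs]; push_cast; rfl
        rw [e3, Finset.mul_sum, ← Finset.sum_sub_distrib]
        apply Finset.sum_congr rfl
        intro j _
        rw [pow_add]; ring
      rw [e2]
      simp only [hY]
      push_cast
      ring
    rw [e1]
    refine (abs_add_le _ _).trans ?_
    rw [hM]
    apply add_le_add _ le_rfl
    rw [abs_mul, abs_of_nonneg hb1]
    apply mul_le_mul_of_nonneg_left _ hb1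
    refine (Finset.abs_sum_le_sum_abs _ _).trans ?_
    apply Finset.sum_le_sum
    intro j _
    rw [abs_mul]
    have h1 := Int.floor_le ((b : ℝ) ^ (n + j) * x)
    have h2 := Int.lt_floor_add_one ((b : ℝ) ^ (n + j) * x)
    have h3 : |(W (n + j) : ℝ) - (b : ℝ) ^ (n + j) * x| ≤ 1 := by
      rw [abs_le]
      simp only [hW]
      constructor <;> linarith
    calc |(q j : ℝ)| * |(W (n + j) : ℝ) - (b : ℝ) ^ (n + j) * x| ≤ |(q j : ℝ)| * 1 :=
          mul_le_mul_of_nonneg_left h3 (abs_nonneg _)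
      _ = _ := mul_one _
  obtain ⟨c, hc, N0, hN0⟩ := main_cub x A B C E hA hx hirr hne b hb (((b : ℤ) - 1) * s)
    (mul_ne_zero hbZ hqb) M Y hYa
  obtain ⟨c', hc', N1, hN1⟩ := absorb3 c hc
  refine ⟨c', hc', max N0 N1, fun N hN => ?_⟩
  refine hN1 N (le_trans (le_max_right _ _) hN) _ ((hN0 N (le_trans (le_max_left _ _) hN)).trans ?_)
  have hsub : Dn b Y N ⊆ insert 0 ((Icc 1 N).filter (fun k : ℕ =>
      ∑ j ∈ range (m + 1), q j * digit b x (k + j) ≠ e)) := by
    intro k hk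
    unfold Dn at hk
    rw [Finset.mem_filter, Finset.mem_range] at hk
    rw [Finset.mem_insert, Finset.mem_filter, Finset.mem_Icc]
    cases k with
    | zero => exact Or.inl rfl
    | succ k =>
      right
      refine ⟨⟨by omega, by omega⟩, fun h => hk.2 ?_⟩
      have h1 := hYs k
      rw [h, sub_self, mul_zero] at h1
      simp only [dlt]
      exact h1
  have h1 := Finset.card_le_card hsub
  have h2 := Finset.card_insert_le 0 ((Icc 1 N).filter (fun k : ℕ =>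
    ∑ j ∈ range (m + 1), q j * digit b x (k + j) ≠ e))
  have h3 : (Dn b Y N).card ≤ ((Icc 1 N).filter (fun k : ℕ =>
    ∑ j ∈ range (m + 1), q j * digit b x (k + j) ≠ e)).card + 1 := h1.trans h2
  exact_mod_cast h3

/-- expansions with bounded integer digits -/
theorem expansions (x : ℝ) (A B C E : ℤ) (hA : A ≠ 0)
    (hx : (A : ℝ) * x ^ 3 + B * x ^ 2 + C * x + E = 0)
    (hirr : ∀ z : ℚ, (A : ℚ) * z ^ 3 + B * z ^ 2 + C * z + E ≠ 0)
    (hne : B ^ 2 ≠ 3 * A * C) (b : ℕ) (hb : 2 ≤ b)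
    (g : ℕ → ℤ) (M : ℤ) (hg : ∀ k, |g k| ≤ M)
    (hsum : HasSum (fun k : ℕ => (g k : ℝ) / (b : ℝ) ^ k) x) :
    ∃ c : ℝ, 0 < c ∧ ∃ N0 : ℕ, ∀ N : ℕ, N0 ≤ N →
      c * (Real.log N) ^ 3 / (Real.log (Real.log N)) ^ 5 ≤
        (((Icc 1 N).filter (fun k => g k ≠ 0)).card : ℝ) := by
  have hb2 : (2 : ℝ) ≤ b := by exact_mod_cast hb
  have hb0 : (0 : ℝ) < b := by linarith
  set W : ℕ → ℤ := fun n => ∑ k ∈ range (n + 1), g k * (b : ℤ) ^ (n - k) with hW
  have hWs : ∀ n, W (n + 1) = b * W n + g (n + 1) := by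
    intro n
    simp only [hW]
    rw [Finset.sum_range_succ, Finset.mul_sum]
    congr 1
    · apply Finset.sum_congr rfl
      intro k hk
      have : k ≤ n := Nat.lt_succ_iff.1 (Finset.mem_range.1 hk)
      rw [show n + 1 - k = (n - k) + 1 by omega, pow_succ]; ring
    · simp
  have hWa : ∀ n, |(W n : ℝ) - (b : ℝ) ^ n * (((1 : ℤ) : ℝ) * x)| ≤ M := by
    intro n
    rw [Int.cast_one, one_mul]
    have h1 := (hasSum_nat_add_iff' (n + 1)).2 hsum
    have h2 := h1.mul_left ((b : ℝ) ^ n)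
    have h3 : (b : ℝ) ^ n * (x - ∑ i ∈ range (n + 1), (g i : ℝ) / (b : ℝ) ^ i) =
        (b : ℝ) ^ n * x - W n := by
      rw [mul_sub]
      congr 1
      simp only [hW]
      push_cast
      rw [Finset.mul_sum]
      apply Finset.sum_congr rfl
      intro k hk
      have hk' : k ≤ n := Nat.lt_succ_iff.1 (Finset.mem_range.1 hk)
      have e : (b : ℝ) ^ n = (b : ℝ) ^ (n - k) * (b : ℝ) ^ k := by rw [← pow_add]; congr 1; omega
      rw [e]
      have : (b : ℝ) ^ k ≠ 0 := by positivity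
      field_simp
    rw [h3] at h2
    have h4 := HasSum.norm_le_of_bounded h2 (hasSum_geometric_two' (M : ℝ)) (by
      intro k
      have hgk : |(g (k + (n + 1)) : ℝ)| ≤ M := by exact_mod_cast hg (k + (n + 1))
      have hM0 : (0 : ℝ) ≤ M := (abs_nonneg _).trans hgk
      have e : (b : ℝ) ^ n * ((g (k + (n + 1)) : ℝ) / (b : ℝ) ^ (k + (n + 1))) =
          (g (k + (n + 1)) : ℝ) / (b : ℝ) ^ (k + 1) := by
        rw [show k + (n + 1) = n + (k + 1) by ring, pow_add]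
        field_simp
      rw [e, Real.norm_eq_abs, abs_div, abs_of_pos (show (0 : ℝ) < (b : ℝ) ^ (k + 1) by positivity),
        div_div]
      apply div_le_div₀ hM0 hgk (by positivity)
      rw [← pow_succ']
      exact pow_le_pow_left₀ (by norm_num) hb2 _)
    rw [Real.norm_eq_abs, abs_sub_comm] at h4
    exact h4
  obtain ⟨c, hc, N0, hN0⟩ := main_cub x A B C E hA hx hirr hne b hb 1 one_ne_zero M W hWa
  obtain ⟨c', hc', N1, hN1⟩ := absorb3 c hc
  refine ⟨c', hc', max N0 N1, fun N hN => ?_⟩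
  refine hN1 N (le_trans (le_max_right _ _) hN) _ ((hN0 N (le_trans (le_max_left _ _) hN)).trans ?_)
  have hsub : Dn b W N ⊆ insert 0 ((Icc 1 N).filter (fun k => g k ≠ 0)) := by
    intro k hk
    unfold Dn at hk
    rw [Finset.mem_filter, Finset.mem_range] at hk
    rw [Finset.mem_insert, Finset.mem_filter, Finset.mem_Icc]
    cases k with
    | zero => exact Or.inl rfl
    | succ k =>
      right
      refine ⟨⟨by omega, by omega⟩, fun h => hk.2 ?_⟩
      simp only [dlt]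
      rw [hWs k, h]
      ring
  have h1 := Finset.card_le_card hsub
  have h2 := Finset.card_insert_le 0 ((Icc 1 N).filter (fun k => g k ≠ 0))
  have h3 : (Dn b W N).card ≤ ((Icc 1 N).filter (fun k => g k ≠ 0)).card + 1 := h1.trans h2
  exact_mod_cast h3

end Pool.Agent.H323R2.C3
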