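import Pool.Agent.H393R2.DE.Single
import Pool.Agent.H323R2.C3.Core

/-! The single prime theorem for the digit sequence. -/

set_option autoImplicit false

namespace Pool.Agent.H323R2.C3

open Finset
open H393R2.DE (Jmp mem_Jmp uu_exists far_gt Far cl cum wt dia far_exists cum_far Adm adm_far adm_exists cum_change jumps_card)
open Pool.Agent.H393R2.DC (UU mem_UU compl_card dlt sg bad bad2 Dn dil conv sg_step)

section

variable {F : Type*} [CommRing F]

variable {D : Finset ℕ} {H : ℕ} {c : ℕ → F} {q K2 N : ℕ} {E : Finset ℕ}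

/-- the chains below the jumps -/
theorem chains (hq : 2 ≤ q)
    (hdil : ∀ R ≤ N, R ∉ E → cum D c ((R / q : ℕ) : ℤ) = cum D c (R : ℤ))
    {w P : ℕ} (hP0 : 1 ≤ P) (hw : w ∈ UU q (K2 + P) E N) (hwN : w + E.card * q ^ K2 + 1 ≤ N)
    (J : Finset ℕ)
    (hJ : J = Jmp (UU q K2 E N) (fun x : ℕ => cum D c (x : ℤ)) (w / q ^ P) w) :
    ∃ (A : Finset ℕ) (δ : ℕ → ℕ → ℕ), (∀ u ∈ A, w / q ^ P ≤ u) ∧
      (∀ u ∈ A, ∀ k ≤ K2, δ u k ∈ D ∧ 0 < δ u k ∧ u < q ^ k * δ u k ∧
        q ^ k * δ u k ≤ u + (E.card * q ^ K2 + 1)) ∧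
      (∀ u ∈ A, ∀ u' ∈ A, ∀ k ≤ K2, ∀ k' ≤ K2, δ u k = δ u' k' → u = u' ∧ k = k') ∧
      J.card ≤ P * A.card := by
  classical
  set V := UU q K2 E N with hV
  have hqpos : 0 < q := by omega
  -- the quotients of `w` are in `V`
  have hwV : ∀ i ≤ P, w / q ^ i ∈ V := by
    intro i hi
    rw [hV, mem_UU]
    rw [mem_UU] at hw
    refine ⟨(Nat.div_le_self _ _).trans hw.1, fun k hk => ?_⟩
    rw [Nat.div_div_eq_div_mul, ← pow_add]
    exact hw.2 (i + k) (by omega)
  -- successor
  have hsucc : ∀ u ∈ J, ∃ v ∈ V, u < v ∧ v ≤ w ∧ cum D c (v : ℤ) ≠ cum D c (u : ℤ) ∧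
      ∀ x ∈ V, x ≤ u ∨ v ≤ x := by
    intro u hu
    rw [hJ, mem_Jmp] at hu
    exact hu.2.2
  choose! nx hnx using hsucc
  have huV : ∀ u ∈ J, u ∈ V ∧ w / q ^ P ≤ u := by
    intro u hu
    rw [hJ, mem_Jmp] at hu
    exact ⟨hu.1, hu.2.1⟩
  have hδ : ∀ u ∈ J, ∀ k ≤ K2, ∃ d ∈ D, u / q ^ k < d ∧ d ≤ nx u / q ^ k := by
    intro u hu k hk
    obtain ⟨h1, h2, h3, h4, h5⟩ := hnx u hu
    have e1 := iter (s := fun R : ℕ => cum D c (R : ℤ)) hdil (huV u hu).1 k hk
    have e2 := iter (s := fun R : ℕ => cum D c (R : ℤ)) hdil h1 k hk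
    apply cum_change (D := D) (c := c) (Nat.div_le_div_right h2.le)
    rw [e1, e2]
    exact fun h => h4 h.symm
  choose! δ hδ' using hδ
  -- choose the period
  have hex : ∃ i ∈ Finset.range P, J.card ≤
      P * (J.filter (fun u => w / q ^ (i + 1) ≤ u ∧ u < w / q ^ i)).card := by
    by_contra hcon
    push Not at hcon
    have hsum : J.card ≤ ∑ i ∈ Finset.range P,
        (J.filter (fun u => w / q ^ (i + 1) ≤ u ∧ u < w / q ^ i)).card := by
      have hsub : J ⊆ (Finset.range P).biUnion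
          (fun i => J.filter (fun u => w / q ^ (i + 1) ≤ u ∧ u < w / q ^ i)) := by
        intro u hu
        have h1 := (huV u hu).2
        have h2 : u < w / q ^ 0 := by
          have := hnx u hu
          simp; omega
        -- the largest `i` with `u < w / q^i`
        have hex2 : ∃ i, w / q ^ (i + 1) ≤ u := ⟨P - 1, by
          rw [Nat.sub_add_cancel hP0]; exact h1⟩
        set i := Nat.find hex2 with hi
        have hi1 : w / q ^ (i + 1) ≤ u := Nat.find_spec hex2
        have hi2 : i ≤ P - 1 := Nat.find_min' hex2 (by rw [Nat.sub_add_cancel hP0]; exact h1)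
        have hi3 : u < w / q ^ i := by
          rcases Nat.eq_zero_or_pos i with h0 | h0
          · rw [h0]; exact h2
          · obtain ⟨i', hi'⟩ : ∃ i', i = i' + 1 := ⟨i - 1, by omega⟩
            have := Nat.find_min hex2 (show i' < Nat.find hex2 by omega)
            rw [hi']
            omega
        rw [Finset.mem_biUnion]
        refine ⟨i, Finset.mem_range.2 (by omega), Finset.mem_filter.2 ⟨hu, hi1, hi3⟩⟩
      exact (Finset.card_le_card hsub).trans Finset.card_biUnion_le
    have h1 : P * ∑ i ∈ Finset.range P,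
        (J.filter (fun u => w / q ^ (i + 1) ≤ u ∧ u < w / q ^ i)).card < P * J.card := by
      rw [Finset.mul_sum]
      calc ∑ i ∈ Finset.range P,
            P * (J.filter (fun u => w / q ^ (i + 1) ≤ u ∧ u < w / q ^ i)).card
          < ∑ i ∈ Finset.range P, J.card := by
            apply Finset.sum_lt_sum_of_nonempty
            · exact Finset.nonempty_range_iff.2 (by omega)
            · exact hcon
        _ = P * J.card := by rw [Finset.sum_const, Finset.card_range, smul_eq_mul]
    have := Nat.mul_le_mul_left P hsum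
    omega
  obtain ⟨i, hi, hcard⟩ := hex
  rw [Finset.mem_range] at hi
  set A := J.filter (fun u => w / q ^ (i + 1) ≤ u ∧ u < w / q ^ i) with hA
  have hAJ : ∀ u ∈ A, u ∈ J ∧ w / q ^ (i + 1) ≤ u ∧ u < w / q ^ i := fun u hu =>
    ⟨(Finset.mem_filter.1 hu).1, (Finset.mem_filter.1 hu).2.1, (Finset.mem_filter.1 hu).2.2⟩
  refine ⟨A, δ, fun u hu => (huV u (hAJ u hu).1).2, ?_, ?_, hcard⟩
  · intro u hu k hk
    obtain ⟨huJ, h1, h2⟩ := hAJ u hu
    obtain ⟨d1, d2, d3⟩ := hδ' u huJ k hk
    have hqk : 0 < q ^ k := pow_pos hqpos _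
    obtain ⟨n1, n2, n3, n4, n5⟩ := hnx u huJ
    refine ⟨d1, lt_of_le_of_lt (Nat.zero_le _) d2, ?_, ?_⟩
    · have := (Nat.div_lt_iff_lt_mul hqk).1 d2
      rwa [mul_comm] at this
    · have h3 : δ u k * q ^ k ≤ nx u := (Nat.le_div_iff_mul_le hqk).1 d3
      obtain ⟨x, hx, hx1, hx2⟩ := uu_exists (q := q) (K1 := K2) (N := N) (E := E) hq
        (a := u + 1) (by omega)
      have h4 := n5 x hx
      have h5 : q ^ k * δ u k = δ u k * q ^ k := mul_comm _ _
      omega
  · have key1 : ∀ u ∈ A, ∀ k ≤ K2, w / q ^ (i + 1 + k) < δ u k ∧ δ u k ≤ w / q ^ (i + k) := by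
      intro u hu k hk
      obtain ⟨huJ, h1, h2⟩ := hAJ u hu
      obtain ⟨d1, d2, d3⟩ := hδ' u huJ k hk
      obtain ⟨n1, n2, n3, n4, n5⟩ := hnx u huJ
      have h3 : nx u ≤ w / q ^ i := by
        rcases n5 _ (hwV i (by omega)) with h | h
        · omega
        · exact h
      constructor
      · have h4 := Nat.div_le_div_right (c := q ^ k) h1
        rw [Nat.div_div_eq_div_mul, ← pow_add] at h4
        omega
      · have h4 := Nat.div_le_div_right (c := q ^ k) h3
        rw [Nat.div_div_eq_div_mul, ← pow_add] at h4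
        omega
    have key2 : ∀ u ∈ A, ∀ u' ∈ A, ∀ k ≤ K2, u < u' → δ u k < δ u' k := by
      intro u hu u' hu' k hk hlt
      obtain ⟨huJ, h1, h2⟩ := hAJ u hu
      obtain ⟨huJ', h1', h2'⟩ := hAJ u' hu'
      obtain ⟨d1, d2, d3⟩ := hδ' u huJ k hk
      obtain ⟨d1', d2', d3'⟩ := hδ' u' huJ' k hk
      obtain ⟨n1, n2, n3, n4, n5⟩ := hnx u huJ
      have h3 : nx u ≤ u' := by
        rcases n5 _ (huV u' huJ').1 with h | h
        · omega
        · exact h
      have h4 := Nat.div_le_div_right (c := q ^ k) h3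
      omega
    have key3 : ∀ u ∈ A, ∀ u' ∈ A, ∀ k ≤ K2, ∀ k' ≤ K2, k < k' → δ u' k' < δ u k := by
      intro u hu u' hu' k hk k' hk' hlt
      have h1 := (key1 u hu k hk).1
      have h2 := (key1 u' hu' k' hk').2
      have h3 : w / q ^ (i + k') ≤ w / q ^ (i + 1 + k) :=
        Nat.div_le_div_left (Nat.pow_le_pow_right hqpos (by omega)) (by positivity)
      omega
    intro u hu u' hu' k hk k' hk' he
    have hkk : k = k' := by
      rcases lt_trichotomy k k' with h | h | h
      · have := key3 u hu u' hu' k hk k' hk' h; omega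
      · exact h
      · have := key3 u' hu' u hu k' hk' k hk h; omega
    subst hkk
    refine ⟨?_, rfl⟩
    rcases lt_trichotomy u u' with h | h | h
    · have := key2 u hu u' hu' k hk h; omega
    · exact h
    · have := key2 u' hu' u hu k hk h; omega

/-- the top of the range -/
theorem top_exists (hq : 2 ≤ q) {K1 : ℕ} {E2 : Finset ℕ} {p : ℕ} (hp : 0 < p) {α β γ : F}
    (hγ : γ ≠ 0) (h0 : 0 ∈ D)
    (hconv : ∀ R ≤ N, R ∉ E2 → ∑ i ∈ D, c i * cum D c ((R : ℤ) - i) =
      α * cum D c ((R / p : ℕ) : ℤ) + β * cum D c (R : ℤ) + γ)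
    {R0 Z0 : ℕ} (hB : E.card * q ^ K1 ≤ R0) (hRZ : R0 ≤ Z0)
    (hN : D.card * D.card * (2 * R0 + 1) + (E2.card + D.card * Z0 +
      (D.card * (p * (2 * R0 + 1)) + p * Z0)) ≤ N) :
    ∃ w ∈ UU q K1 E N, Z0 ≤ w + R0 ∧
      w ≤ D.card * D.card * (2 * R0 + 1) + (E2.card + D.card * Z0 +
      (D.card * (p * (2 * R0 + 1)) + p * Z0)) ∧ ∃ σ : F, σ ≠ 0 ∧
      ∀ x : ℕ, w ≤ x → x ≤ w + R0 → cum D c (x : ℤ) = σ := by
  classical
  set E3 := (E2 ∪ D.biUnion (fun i => Finset.Ico i (i + Z0))) ∪
    (D.biUnion (fun i => Finset.Ico (p * (i - R0)) (p * (i + R0 + 1))) ∪ Finset.range (p * Z0))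
    with hE3
  have hE3c : E3.card ≤ E2.card + D.card * Z0 + (D.card * (p * (2 * R0 + 1)) + p * Z0) := by
    refine (Finset.card_union_le _ _).trans (Nat.add_le_add ?_ ?_)
    · refine (Finset.card_union_le _ _).trans (Nat.add_le_add_left ?_ _)
      refine Finset.card_biUnion_le.trans ?_
      rw [← smul_eq_mul, ← Finset.sum_const]
      apply Finset.sum_le_sum
      intro i _
      rw [Nat.card_Ico]; omega
    · refine (Finset.card_union_le _ _).trans (Nat.add_le_add ?_ ?_)
      · refine Finset.card_biUnion_le.trans ?_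
        rw [← smul_eq_mul, ← Finset.sum_const]
        apply Finset.sum_le_sum
        intro i _
        rw [Nat.card_Ico, ← Nat.mul_sub]
        apply Nat.mul_le_mul_left
        omega
      · rw [Finset.card_range]
  obtain ⟨x, _, hx2, hx3, hx4⟩ := adm_exists (D := D) (H := R0) E3 0
  rw [zero_add] at hx2
  have hxN : x ≤ N := by omega
  have hxE2 : x ∉ E2 := fun h => hx4 (Finset.mem_union_left _ (Finset.mem_union_left _ h))
  have hsum := hconv x hxN hxE2
  -- a far value
  have hval : ∃ v : ℤ, Far D R0 v ∧ (Z0 : ℤ) ≤ v ∧ v ≤ x ∧ cum D c v ≠ 0 := by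
    by_cases hall : ∀ i ∈ D, cum D c ((x : ℤ) - i) = 0
    · have hs0 : ∑ i ∈ D, c i * cum D c ((x : ℤ) - i) = 0 := by
        apply Finset.sum_eq_zero
        intro i hi
        rw [hall i hi, mul_zero]
      have hx0 : cum D c (x : ℤ) = 0 := by
        have := hall 0 h0
        simpa using this
      rw [hs0, hx0, mul_zero, add_zero] at hsum
      have hxp : cum D c ((x / p : ℕ) : ℤ) ≠ 0 := by
        intro h
        rw [h, mul_zero, zero_add] at hsum
        exact hγ hsum.symm
      refine ⟨((x / p : ℕ) : ℤ), ?_, ?_, ?_, hxp⟩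
      · intro d hd
        by_contra hcon
        push Not at hcon
        apply hx4
        apply Finset.mem_union_right
        apply Finset.mem_union_left
        rw [Finset.mem_biUnion]
        refine ⟨d, hd, ?_⟩
        rw [abs_le] at hcon
        have e12 : d - R0 ≤ x / p ∧ x / p < d + R0 + 1 := by
          generalize x / p = v at hcon ⊢
          omega
        rw [Finset.mem_Ico]
        constructor
        · have := (Nat.le_div_iff_mul_le hp).1 e12.1
          rwa [mul_comm] at this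
        · have := (Nat.div_lt_iff_lt_mul hp).1 e12.2
          rwa [mul_comm] at this
      · by_contra hcon
        push Not at hcon
        apply hx4
        apply Finset.mem_union_right
        apply Finset.mem_union_right
        rw [Finset.mem_range]
        have h1 : x / p < Z0 := by exact_mod_cast hcon
        have := (Nat.div_lt_iff_lt_mul hp).1 h1
        rwa [mul_comm] at this
      · exact_mod_cast Nat.div_le_self x p
    · push Not at hall
      obtain ⟨i, hi, hcum⟩ := hall
      have hix : i ≤ x := by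
        by_contra hcon
        push Not at hcon
        apply hcum
        unfold cum
        rw [Finset.filter_false_of_mem, Finset.sum_empty]
        intro j _
        omega
      refine ⟨(x : ℤ) - i, adm_far hx3 hi, ?_, by omega, hcum⟩
      by_contra hcon
      push Not at hcon
      apply hx4
      apply Finset.mem_union_left
      apply Finset.mem_union_right
      rw [Finset.mem_biUnion]
      exact ⟨i, hi, Finset.mem_Ico.2 ⟨hix, by omega⟩⟩
  obtain ⟨v, hfar, hvZ, hvx, hv⟩ := hval
  obtain ⟨n, rfl⟩ : ∃ n : ℕ, v = n := ⟨v.toNat, (Int.toNat_of_nonneg (by omega)).symm⟩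
  obtain ⟨w, hw, hw1, hw2⟩ := uu_exists (q := q) (K1 := K1) (N := N) (E := E) hq
    (a := n - R0) (by omega)
  refine ⟨w, hw, by omega, by omega, cum D c (n : ℤ), hv, ?_⟩
  intro y hy1 hy2
  apply cum_far hfar
  rw [abs_le]
  omega


end

end Pool.Agent.H323R2.C3
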