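import Mathlib

/-! Walks with distinct prime labels (basic lemmas, copied from helper393, H393R2/DE/Walk). -/

set_option autoImplicit false

namespace Pool.Agent.H323R2.C3

open Finset

/-- A subset with large minimum degree. -/
theorem exists_core {α ι : Type*} [DecidableEq α] [DecidableEq ι] (E : Finset ι) (f g : ι → α)
    (c : ℕ) : ∀ (n : ℕ) (V : Finset α), V.card = n →
      c * V.card < (E.filter (fun e => f e ∈ V ∧ g e ∈ V)).card →
      ∃ V' ⊆ V, V'.Nonempty ∧ ∀ v ∈ V',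
        c < (E.filter (fun e => (f e ∈ V' ∧ g e ∈ V') ∧ (f e = v ∨ g e = v))).card := by
  intro n
  induction n with
  | zero =>
    intro V hV h
    have hVe : V = ∅ := Finset.card_eq_zero.1 hV
    subst hVe
    simp at h
  | succ n ih =>
    intro V hV h
    by_cases hall : ∀ v ∈ V,
        c < (E.filter (fun e => (f e ∈ V ∧ g e ∈ V) ∧ (f e = v ∨ g e = v))).card
    · refine ⟨V, subset_rfl, ?_, hall⟩
      rw [← Finset.card_pos]; omega
    · push Not at hall
      obtain ⟨v, hv, hvc⟩ := hall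
      have hcard : (V.erase v).card = n := by
        rw [Finset.card_erase_of_mem hv]; omega
      have hsplit : (E.filter (fun e => f e ∈ V ∧ g e ∈ V)).card ≤
          (E.filter (fun e => f e ∈ V.erase v ∧ g e ∈ V.erase v)).card +
          (E.filter (fun e => (f e ∈ V ∧ g e ∈ V) ∧ (f e = v ∨ g e = v))).card := by
        rw [← Finset.card_union_add_card_inter]
        refine le_trans (Finset.card_le_card ?_) (Nat.le_add_right _ _)
        intro e he
        rw [Finset.mem_filter] at he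
        rw [Finset.mem_union, Finset.mem_filter, Finset.mem_filter]
        by_cases h1 : f e = v ∨ g e = v
        · right; exact ⟨he.1, he.2, h1⟩
        · left
          push Not at h1
          exact ⟨he.1, Finset.mem_erase.2 ⟨h1.1, he.2.1⟩, Finset.mem_erase.2 ⟨h1.2, he.2.2⟩⟩
      have hlt : c * (V.erase v).card <
          (E.filter (fun e => f e ∈ V.erase v ∧ g e ∈ V.erase v)).card := by
        rw [hcard]
        rw [hV] at h
        have : c * (n + 1) = c * n + c := by ring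
        omega
      obtain ⟨V', hV', hne, hdeg⟩ := ih _ hcard hlt
      exact ⟨V', hV'.trans (Finset.erase_subset _ _), hne, hdeg⟩

/-- product of the up primes -/
def upP (σ : Finset (ℕ × Bool)) : ℕ := ∏ x ∈ σ, if x.2 then x.1 else 1
/-- product of the down primes -/
def dnP (σ : Finset (ℕ × Bool)) : ℕ := ∏ x ∈ σ, if x.2 then 1 else x.1

/-- no prime occurs with both signs -/
def Cons (σ : Finset (ℕ × Bool)) : Prop := ∀ p, ¬ ((p, true) ∈ σ ∧ (p, false) ∈ σ)

theorem upP_insert {σ : Finset (ℕ × Bool)} {p : ℕ × Bool} (h : p ∉ σ) :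
    upP (insert p σ) = (if p.2 then p.1 else 1) * upP σ := by
  unfold upP; rw [Finset.prod_insert h]

theorem dnP_insert {σ : Finset (ℕ × Bool)} {p : ℕ × Bool} (h : p ∉ σ) :
    dnP (insert p σ) = (if p.2 then 1 else p.1) * dnP σ := by
  unfold dnP; rw [Finset.prod_insert h]

theorem dvd_upP {σ : Finset (ℕ × Bool)} (hp : ∀ x ∈ σ, x.1.Prime) {p : ℕ} (hpp : p.Prime) :
    p ∣ upP σ ↔ (p, true) ∈ σ := by
  unfold upP
  rw [hpp.prime.dvd_finsetProd_iff]
  constructor
  · rintro ⟨⟨q, d⟩, hx, hd⟩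
    cases d with
    | true =>
      simp only [if_true] at hd
      rw [Nat.prime_dvd_prime_iff_eq hpp (hp _ hx)] at hd
      rw [hd]; exact hx
    | false =>
      simp at hd
      exact absurd hd hpp.one_lt.ne'
  · intro h
    exact ⟨(p, true), h, by simp⟩

theorem dvd_dnP {σ : Finset (ℕ × Bool)} (hp : ∀ x ∈ σ, x.1.Prime) {p : ℕ} (hpp : p.Prime) :
    p ∣ dnP σ ↔ (p, false) ∈ σ := by
  unfold dnP
  rw [hpp.prime.dvd_finsetProd_iff]
  constructor
  · rintro ⟨⟨q, d⟩, hx, hd⟩
    cases d with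
    | false =>
      simp only [Bool.false_eq_true, if_false] at hd
      rw [Nat.prime_dvd_prime_iff_eq hpp (hp _ hx)] at hd
      rw [hd]; exact hx
    | true =>
      simp at hd
      exact absurd hd hpp.one_lt.ne'
  · intro h
    exact ⟨(p, false), h, by simp⟩

theorem sub_of_cross {σ τ : Finset (ℕ × Bool)} (hσ : ∀ x ∈ σ, x.1.Prime)
    (hτ : ∀ x ∈ τ, x.1.Prime) (cσ : Cons σ) (h : upP σ * dnP τ = upP τ * dnP σ) : σ ⊆ τ := by
  rintro ⟨p, d⟩ hx
  have hpp : p.Prime := hσ _ hx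
  cases d with
  | true =>
    have h1 : p ∣ upP σ := (dvd_upP hσ hpp).2 hx
    have h2 : p ∣ upP τ * dnP σ := h ▸ Dvd.dvd.mul_right h1 _
    rcases (hpp.dvd_mul).1 h2 with h3 | h3
    · exact (dvd_upP hτ hpp).1 h3
    · exact absurd ⟨hx, (dvd_dnP hσ hpp).1 h3⟩ (cσ p)
  | false =>
    have h1 : p ∣ dnP σ := (dvd_dnP hσ hpp).2 hx
    have h2 : p ∣ upP σ * dnP τ := h ▸ Dvd.dvd.mul_left h1 _
    rcases (hpp.dvd_mul).1 h2 with h3 | h3
    · exact absurd ⟨(dvd_upP hσ hpp).1 h3, hx⟩ (cσ p)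
    · exact (dvd_dnP hτ hpp).1 h3

theorem eq_of_cross {σ τ : Finset (ℕ × Bool)} (hσ : ∀ x ∈ σ, x.1.Prime)
    (hτ : ∀ x ∈ τ, x.1.Prime) (cσ : Cons σ) (cτ : Cons τ)
    (h : upP σ * dnP τ = upP τ * dnP σ) : σ = τ :=
  Finset.Subset.antisymm (sub_of_cross hσ hτ cσ h) (sub_of_cross hτ hσ cτ h.symm)

end Pool.Agent.H323R2.C3
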